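import Pool.Agent.helper40.BN.Lap
import Pool.Agent.helper42.BN.Decay

/-!
# MP_94a57f_an: the bubble and its derivatives as elements of `D^{1,2}`, density (module BN-G1)
-/

set_option autoImplicit false
open MeasureTheory Filter Topology Set Metric
open scoped ContDiff Gradient RealInnerProductSpace ENNReal

noncomputable section
namespace Pool.Agent.helper13.BN
variable {N : ℕ}

namespace G1

/-! ### decay classes -/

/-- `|f(x)| ≤ C (1+|x|)^{-k}` -/
def DecO (k : ℝ) (f : E N → ℝ) : Prop := ∃ C : ℝ, 0 ≤ C ∧ ∀ x, |f x| ≤ C * (1 + ‖x‖) ^ (-k)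

theorem one_le_r (x : E N) : (1 : ℝ) ≤ 1 + ‖x‖ := by linarith [norm_nonneg x]

theorem r_pos (x : E N) : (0 : ℝ) < 1 + ‖x‖ := by linarith [norm_nonneg x]

theorem DecO.mono {k k' : ℝ} {f : E N → ℝ} (h : DecO k f) (hk : k' ≤ k) : DecO k' f := by
  obtain ⟨C, hC, h⟩ := h
  refine ⟨C, hC, fun x => (h x).trans ?_⟩
  gcongr
  exact one_le_r x

theorem DecO.mul {k k' : ℝ} {f g : E N → ℝ} (h : DecO k f) (h' : DecO k' g) :
    DecO (k + k') (fun x => f x * g x) := by
  obtain ⟨C, hC, h⟩ := h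
  obtain ⟨C', hC', h'⟩ := h'
  refine ⟨C * C', by positivity, fun x => ?_⟩
  have e : (1 + ‖x‖) ^ (-(k + k')) = (1 + ‖x‖) ^ (-k) * (1 + ‖x‖) ^ (-k') := by
    rw [← Real.rpow_add (r_pos x)]
    congr 1
    ring
  rw [abs_mul, e]
  calc |f x| * |g x| ≤ (C * (1 + ‖x‖) ^ (-k)) * (C' * (1 + ‖x‖) ^ (-k')) :=
        mul_le_mul (h x) (h' x) (abs_nonneg _) ((abs_nonneg _).trans (h x))
    _ = _ := by ring

theorem DecO.add {k : ℝ} {f g : E N → ℝ} (h : DecO k f) (h' : DecO k g) :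
    DecO k (fun x => f x + g x) := by
  obtain ⟨C, hC, h⟩ := h
  obtain ⟨C', hC', h'⟩ := h'
  refine ⟨C + C', by positivity, fun x => ?_⟩
  calc |f x + g x| ≤ |f x| + |g x| := abs_add_le _ _
    _ ≤ C * (1 + ‖x‖) ^ (-k) + C' * (1 + ‖x‖) ^ (-k) := add_le_add (h x) (h' x)
    _ = _ := by ring

theorem DecO.const (c : ℝ) : DecO 0 (fun _ : E N => c) :=
  ⟨|c|, abs_nonneg _, fun x => by simp⟩

theorem DecO.zero (k : ℝ) : DecO k (fun _ : E N => 0) :=
  ⟨0, le_rfl, fun x => by simp⟩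

theorem DecO.const_mul {k : ℝ} {f : E N → ℝ} (c : ℝ) (h : DecO k f) :
    DecO k (fun x => c * f x) := by
  have := (DecO.const c).mul h
  simpa using this

theorem DecO.of_le {k : ℝ} {f g : E N → ℝ} (h : DecO k g) (h' : ∀ x, |f x| ≤ |g x|) :
    DecO k f := by
  obtain ⟨C, hC, h⟩ := h
  exact ⟨C, hC, fun x => (h' x).trans (h x)⟩

theorem DecO.congr {k : ℝ} {f g : E N → ℝ} (h : DecO k g) (h' : ∀ x, f x = g x) :
    DecO k f := h.of_le fun x => (by rw [h' x])

theorem decO_norm (ξ : E N) : DecO (-1) (fun x : E N => ‖x - ξ‖) := by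
  refine ⟨1 + ‖ξ‖, by positivity, fun x => ?_⟩
  rw [abs_of_nonneg (norm_nonneg _), neg_neg, Real.rpow_one]
  calc ‖x - ξ‖ ≤ ‖x‖ + ‖ξ‖ := norm_sub_le _ _
    _ ≤ (1 + ‖ξ‖) * (1 + ‖x‖) := by nlinarith [norm_nonneg x, norm_nonneg ξ]

theorem decO_inner (ξ e : E N) : DecO (-1) (fun x : E N => ⟪x - ξ, e⟫) := by
  refine ((decO_norm ξ).const_mul ‖e‖).of_le fun x => ?_
  rw [abs_mul, abs_of_nonneg (norm_nonneg e), abs_of_nonneg (norm_nonneg _), mul_comm]
  exact abs_real_inner_le_norm _ _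

theorem DecO.pow {k : ℝ} {f : E N → ℝ} (h : DecO k f) (m : ℕ) :
    DecO (m * k) (fun x => f x ^ m) := by
  induction m with
  | zero => simpa using DecO.const (N := N) 1
  | succ m ih =>
    have := ih.mul h
    refine (this.mono (by push_cast; linarith)).congr fun x => ?_
    rw [pow_succ]

/-- `q = μ² + |x-ξ|²` -/
def qq (μ : ℝ) (ξ x : E N) : ℝ := μ ^ 2 + ‖x - ξ‖ ^ 2

theorem qq_pos {μ : ℝ} (hμ : 0 < μ) (ξ x : E N) : 0 < qq μ ξ x := by unfold qq; positivity

theorem qq_ge {μ : ℝ} (hμ : 0 < μ) (ξ : E N) : ∃ κ : ℝ, 0 < κ ∧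
    ∀ x : E N, κ * (1 + ‖x‖) ^ 2 ≤ qq μ ξ x := by
  -- `1 + |x| ≤ 1 + |ξ| + |x-ξ|`
  set A : ℝ := (1 + ‖ξ‖) / μ + 1 with hA
  have hA0 : 0 < A := by positivity
  refine ⟨1 / (2 * A ^ 2), by positivity, fun x => ?_⟩
  have h1 : 1 + ‖x‖ ≤ A * μ + A * ‖x - ξ‖ := by
    have h2 : ‖x‖ ≤ ‖ξ‖ + ‖x - ξ‖ := by
      calc ‖x‖ = ‖ξ + (x - ξ)‖ := by congr 1; abel
        _ ≤ _ := norm_add_le _ _
    have h3 : A * μ = 1 + ‖ξ‖ + μ := by rw [hA]; field_simp
    have h4 : ‖x - ξ‖ ≤ A * ‖x - ξ‖ := by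
      have : 1 ≤ A := by rw [hA]; linarith [show 0 ≤ (1 + ‖ξ‖) / μ by positivity]
      nlinarith [norm_nonneg (x - ξ)]
    linarith
  have h5 : (1 + ‖x‖) ^ 2 ≤ (A * μ + A * ‖x - ξ‖) ^ 2 := by
    have := r_pos x
    gcongr
  have h6 : (A * μ + A * ‖x - ξ‖) ^ 2 ≤ 2 * A ^ 2 * qq μ ξ x := by
    unfold qq
    nlinarith [sq_nonneg (A * μ - A * ‖x - ξ‖)]
  have h7 : (1 + ‖x‖) ^ 2 ≤ 2 * A ^ 2 * qq μ ξ x := h5.trans h6
  rw [div_mul_eq_mul_div, one_mul, div_le_iff₀ (by positivity)]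
  linarith

theorem decO_qq {μ : ℝ} (hμ : 0 < μ) (ξ : E N) {s : ℝ} (hs : 0 ≤ s) :
    DecO (2 * s) (fun x : E N => qq μ ξ x ^ (-s)) := by
  obtain ⟨κ, hκ, h⟩ := qq_ge hμ ξ
  refine ⟨κ ^ (-s), by positivity, fun x => ?_⟩
  have hq := qq_pos hμ ξ x
  have hr := r_pos x
  rw [abs_of_nonneg (by positivity)]
  calc qq μ ξ x ^ (-s) ≤ (κ * (1 + ‖x‖) ^ 2) ^ (-s) :=
        Real.rpow_le_rpow_of_nonpos (by positivity) (h x) (by linarith)
    _ = κ ^ (-s) * (1 + ‖x‖) ^ (-(2 * s)) := by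
        rw [Real.mul_rpow hκ.le (by positivity), ← Real.rpow_natCast, ← Real.rpow_mul hr.le]
        congr 2
        push_cast
        ring

/-- `C²` functions decaying like the fundamental solution -/
def Dec (u : E N → ℝ) : Prop := ContDiff ℝ 2 u ∧ DecO (N - 2) u ∧ DecO (N - 1) (fun x => ‖∇ u x‖) ∧
  DecO N (lap u)

theorem Dec.add {u v : E N → ℝ} (h : Dec u) (h' : Dec v) : Dec (fun x => u x + v x) := by
  refine ⟨h.1.add h'.1, h.2.1.add h'.2.1, ?_, ?_⟩
  · refine (h.2.2.1.add h'.2.2.1).of_le fun x => ?_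
    rw [abs_of_nonneg (norm_nonneg _), abs_of_nonneg (by positivity),
      gradient_add' (h.1.contDiffAt.differentiableAt (by norm_num))
        (h'.1.contDiffAt.differentiableAt (by norm_num))]
    exact norm_add_le _ _
  · exact (h.2.2.2.add h'.2.2.2).congr fun x => lap_add h.1.contDiffAt h'.1.contDiffAt

theorem Dec.const_mul {u : E N → ℝ} (c : ℝ) (h : Dec u) : Dec (fun x => c * u x) := by
  refine ⟨contDiff_const.mul h.1, h.2.1.const_mul c, ?_, ?_⟩
  · refine (h.2.2.1.const_mul |c|).congr fun x => ?_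
    have hJ : J2 u x (∇ u x) (lap u x) := ⟨h.1.contDiffAt, rfl, rfl⟩
    rw [(hJ.const_mul c).2.1, norm_smul, Real.norm_eq_abs]
  · refine (h.2.2.2.const_mul c).congr fun x => ?_
    exact lap_const_mul c h.1.contDiffAt

theorem Dec.congr {u v : E N → ℝ} (h : Dec u) (h' : ∀ x, v x = u x) : Dec v := by
  have : v = u := funext h'
  rwa [this]

theorem exists_of_dec (hN : 3 ≤ N) {u : E N → ℝ} (h : Dec u) :
    ∃ w : LV N, Weak univ w (fun x => - lap u x) ∧ fn w =ᵐ[volume] u := by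
  obtain ⟨hu, ⟨C0, hC0, h0⟩, ⟨C1, hC1, h1⟩, ⟨C2, hC2, h2⟩⟩ := h
  obtain ⟨w, hw, hw', -⟩ := weak_decay hN hu (C := C0 + C1 + C2)
    (fun x => by
      have e : (2 : ℝ) - N = -(N - 2) := by ring
      rw [e]
      refine (h0 x).trans ?_
      have := r_pos x
      gcongr
      linarith)
    (fun x => by
      have e : (1 : ℝ) - N = -(N - 1) := by ring
      rw [e]
      have h1x := h1 x
      rw [abs_of_nonneg (norm_nonneg _)] at h1x
      refine h1x.trans ?_
      have := r_pos x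
      gcongr
      linarith)
    (fun x => by
      refine (h2 x).trans ?_
      have := r_pos x
      gcongr
      linarith)
  exact ⟨w, hw, hw'⟩

/-! ### the functions `t^m q^{-a}` -/

theorem J2_tpow {e : E N} (he : ‖e‖ = 1) (ξ x : E N) (m : ℕ) :
    J2 (fun y : E N => ⟪y - ξ, e⟫ ^ m) x ((m * ⟪x - ξ, e⟫ ^ (m - 1)) • e)
      (m * (m - 1) * ⟪x - ξ, e⟫ ^ (m - 2)) := by
  have hl : J2 (fun y : E N => ⟪y - ξ, e⟫) x e 0 := by
    refine ((J2_inner e x).add (J2.const (-⟪ξ, e⟫) x)).congr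
      (Eventually.of_forall fun y => ?_) (by simp) (by simp)
    simp only [inner_sub_left]
    ring
  have h1 := hl.comp (g := fun t => t ^ m) (contDiffAt_id.pow m)
  have e1 : deriv (fun t : ℝ => t ^ m) = fun t => (m : ℝ) * t ^ (m - 1) := by
    ext t
    simp
  have e2 : deriv (deriv (fun t : ℝ => t ^ m)) = fun t => (m : ℝ) * (m - 1) * t ^ (m - 2) := by
    rw [e1]
    ext t
    rw [deriv_const_mul _ (by fun_prop)]
    rcases m with _ | m
    · simp
    · simp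
      ring_nf
  refine h1.congr (Eventually.of_forall fun y => rfl) ?_ ?_
  · rw [e1]
  · rw [e2, he]
    ring

/-- the function `t^m q^{-a}` -/
def tq (e : E N) (μ : ℝ) (ξ : E N) (a : ℝ) (m : ℕ) (x : E N) : ℝ :=
  ⟪x - ξ, e⟫ ^ m * qq μ ξ x ^ (-a)

theorem J2_tq {e : E N} (he : ‖e‖ = 1) {μ : ℝ} (hμ : 0 < μ) (ξ x : E N) (a : ℝ) (m : ℕ) :
    J2 (tq e μ ξ a m) x
      ((⟪x - ξ, e⟫ ^ m * (- 2 * a * qq μ ξ x ^ (-a - 1))) • (x - ξ)
        + (qq μ ξ x ^ (-a) * (m * ⟪x - ξ, e⟫ ^ (m - 1))) • e)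
      (4 * a * (a - cc N - m) * (⟪x - ξ, e⟫ ^ m * qq μ ξ x ^ (-a - 1))
        - 4 * a * (a + 1) * μ ^ 2 * (⟪x - ξ, e⟫ ^ m * qq μ ξ x ^ (-a - 2))
        + m * (m - 1) * (⟪x - ξ, e⟫ ^ (m - 2) * qq μ ξ x ^ (-a))) := by
  have h := (J2_tpow he ξ x m).mul (J2_pow hμ ξ x (-a))
  refine h.congr (Eventually.of_forall fun y => rfl) ?_ ?_
  · rw [smul_smul, smul_smul]
    unfold qq
    congr 2
    ring
  · have hq := qq_pos hμ ξ x
    have e1 : (μ ^ 2 + ‖x - ξ‖ ^ 2) = qq μ ξ x := rfl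
    rw [e1, real_inner_smul_left, real_inner_smul_right, real_inner_comm (x - ξ) e]
    have e2 : (m : ℝ) * ⟪x - ξ, e⟫ ^ (m - 1) * (2 * -a * qq μ ξ x ^ (-a - 1) * ⟪x - ξ, e⟫)
        = - 2 * a * m * (⟪x - ξ, e⟫ ^ m * qq μ ξ x ^ (-a - 1)) := by
      rcases m with _ | m
      · simp
      · simp only [Nat.add_sub_cancel, pow_succ]
        ring
    rw [e2]
    unfold cc
    ring

theorem dec_tq (hN : 3 ≤ N) {e : E N} (he : ‖e‖ = 1) {μ : ℝ} (hμ : 0 < μ) (ξ : E N) {a : ℝ} {m : ℕ}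
    (ha : cc N + m ≤ a) : Dec (tq e μ ξ a m) := by
  have hNr : (3 : ℝ) ≤ N := by exact_mod_cast hN
  have hm0 : (0 : ℝ) ≤ m := Nat.cast_nonneg m
  have hc : cc N = (N - 2) / 2 := rfl
  have ha0 : 0 ≤ a := by linarith
  have ht := decO_inner ξ e
  have hJ := fun x => J2_tq he hμ ξ x a m
  have qd : ∀ b : ℝ, 0 ≤ b → DecO (2 * b) (fun x : E N => qq μ ξ x ^ (-b)) :=
    fun b hb => decO_qq hμ ξ hb
  have q1 : DecO (2 * (a + 1)) (fun x : E N => qq μ ξ x ^ (-a - 1)) := by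
    refine (qd (a + 1) (by linarith)).congr fun x => ?_
    congr 1
    ring
  have q2 : DecO (2 * (a + 2)) (fun x : E N => qq μ ξ x ^ (-a - 2)) := by
    refine (qd (a + 2) (by linarith)).congr fun x => ?_
    congr 1
    ring
  have t1 : DecO (1 - m) (fun x : E N => (m : ℝ) * ⟪x - ξ, e⟫ ^ (m - 1)) := by
    rcases m with _ | m
    · refine (DecO.zero _).congr fun x => ?_
      simp
    · refine ((ht.pow m).const_mul _).mono ?_
      push_cast
      linarith
  have t2 : DecO (2 - m) (fun x : E N => (m : ℝ) * (m - 1) * ⟪x - ξ, e⟫ ^ (m - 2)) := by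
    rcases m with _ | _ | m
    · refine (DecO.zero _).congr fun x => ?_
      simp
    · refine (DecO.zero _).congr fun x => ?_
      simp
    · refine ((ht.pow m).const_mul _).mono ?_
      push_cast
      linarith
  refine ⟨contDiff_iff_contDiffAt.2 fun x => (hJ x).1, ?_, ?_, ?_⟩
  · refine (((ht.pow m).mul (qd a ha0)).mono ?_).congr fun x => rfl
    nlinarith
  · have h1 := (((ht.pow m).mul q1).mul (decO_norm ξ)).const_mul (2 * a)
    have h2 := (qd a ha0).mul t1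
    have h1' : DecO (N - 1) (fun x : E N =>
        ‖(⟪x - ξ, e⟫ ^ m * (- 2 * a * qq μ ξ x ^ (-a - 1))) • (x - ξ)‖) := by
      refine (h1.mono (k' := (N : ℝ) - 1) (by nlinarith)).of_le fun x => ?_
      rw [abs_of_nonneg (norm_nonneg _), norm_smul, Real.norm_eq_abs]
      simp only [abs_mul, abs_norm, abs_neg]
      apply le_of_eq
      ring
    have h2' : DecO (N - 1) (fun x : E N =>
        ‖(qq μ ξ x ^ (-a) * (m * ⟪x - ξ, e⟫ ^ (m - 1))) • e‖) := by
      refine (h2.mono (k' := (N : ℝ) - 1) (by nlinarith)).of_le fun x => ?_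
      rw [abs_of_nonneg (norm_nonneg _), norm_smul, Real.norm_eq_abs, he, mul_one]
    refine (h1'.add h2').of_le fun x => ?_
    rw [(hJ x).2.1, abs_of_nonneg (norm_nonneg _), abs_of_nonneg (by positivity)]
    exact norm_add_le _ _
  · have h1 := ((ht.pow m).mul q1).const_mul (4 * a * (a - cc N - m))
    have h2 := ((ht.pow m).mul q2).const_mul (- (4 * a * (a + 1) * μ ^ 2))
    have h3 := t2.mul (qd a ha0)
    refine (((h1.mono (k' := (N : ℝ)) (by nlinarith)).add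
      (h2.mono (k' := (N : ℝ)) (by nlinarith))).add
      (h3.mono (k' := (N : ℝ)) (by nlinarith))).congr fun x => ?_
    rw [(hJ x).2.2]
    ring


/-! ### the bubble and its derivatives -/

theorem dec_bub (hN : 3 ≤ N) {μ : ℝ} (hμ : 0 < μ) (ξ : E N) : Dec (bub N μ ξ) := by
  obtain ⟨e, he⟩ : ∃ e : E N, ‖e‖ = 1 :=
    ⟨EuclideanSpace.single ⟨0, by omega⟩ 1, by simp⟩
  refine ((dec_tq hN he hμ ξ (a := cc N) (m := 0) (by simp)).const_mul
    (alN N * μ ^ cc N)).congr fun x => ?_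
  unfold bub tq qq
  ring

theorem dec_bubMu (hN : 3 ≤ N) {μ : ℝ} (hμ : 0 < μ) (ξ : E N) : Dec (bubMu N μ ξ) := by
  obtain ⟨e, he⟩ : ∃ e : E N, ‖e‖ = 1 :=
    ⟨EuclideanSpace.single ⟨0, by omega⟩ 1, by simp⟩
  refine (((dec_tq hN he hμ ξ (a := cc N) (m := 0) (by simp)).const_mul
    (cc N * (alN N * μ ^ cc N))).add ((dec_tq hN he hμ ξ (a := cc N + 1) (m := 0)
      (by simp)).const_mul (cc N * (alN N * μ ^ cc N) * (- 2 * μ ^ 2)))).congr fun x => ?_
  have ht : 0 < μ ^ 2 + ‖x - ξ‖ ^ 2 := by positivity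
  have e1 : -(cc N + 1) = -cc N - 1 := by ring
  unfold bubMu bub tq qq
  rw [e1, Real.rpow_sub_one ht.ne']
  field_simp
  ring

theorem dec_bubXi (hN : 3 ≤ N) {e : E N} (he : ‖e‖ = 1) {μ : ℝ} (hμ : 0 < μ) (ξ : E N) :
    Dec (bubXi N e μ ξ) := by
  refine ((dec_tq hN he hμ ξ (a := cc N + 1) (m := 1) (by simp)).const_mul
    (2 * cc N * μ * (alN N * μ ^ cc N))).congr fun x => ?_
  have ht : 0 < μ ^ 2 + ‖x - ξ‖ ^ 2 := by positivity
  have e1 : -(cc N + 1) = -cc N - 1 := by ring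
  unfold bubXi bub tq qq
  rw [e1, Real.rpow_sub_one ht.ne']
  field_simp

end G1
open G1

/-- elements of `D^{1,2}` given by the bubble and its derivatives -/
theorem exists_bubD (hN : 3 ≤ N) {μ : ℝ} (hμ : 0 < μ) (ξ : E N) :
    ∃ w : LV N, Weak univ w (fun x => nl N (bub N μ ξ x)) ∧ fn w =ᵐ[volume] bub N μ ξ := by
  obtain ⟨w, hw, hw'⟩ := exists_of_dec hN (dec_bub hN hμ ξ)
  refine ⟨w, ?_, hw'⟩
  simpa only [lap_bub hN hμ ξ, neg_neg] using hw

theorem exists_bubMuD (hN : 3 ≤ N) {μ : ℝ} (hμ : 0 < μ) (ξ : E N) :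
    ∃ w : LV N, Weak univ w (fun x => dnl N (bub N μ ξ x) * bubMu N μ ξ x) ∧
      fn w =ᵐ[volume] bubMu N μ ξ := by
  obtain ⟨w, hw, hw'⟩ := exists_of_dec hN (dec_bubMu hN hμ ξ)
  refine ⟨w, ?_, hw'⟩
  simpa only [lap_bubMu hN hμ ξ, neg_neg] using hw

theorem exists_bubXiD (hN : 3 ≤ N) {e : E N} (he : ‖e‖ = 1) {μ : ℝ} (hμ : 0 < μ) (ξ : E N) :
    ∃ w : LV N, Weak univ w (fun x => dnl N (bub N μ ξ x) * bubXi N e μ ξ x) ∧
      fn w =ᵐ[volume] bubXi N e μ ξ := by
  obtain ⟨w, hw, hw'⟩ := exists_of_dec hN (dec_bubXi hN he hμ ξ)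
  refine ⟨w, ?_, hw'⟩
  simpa only [lap_bubXi hN he hμ ξ, neg_neg] using hw

/-- the basis functions -/
def gb (N : ℕ) (e : E N) (j m : ℕ) (x : E N) : ℝ :=
  (1 + ‖x‖ ^ 2) ^ (-(cc N + j)) * ⟪x, e⟫ ^ m

theorem gb_eq_tq (e : E N) (j m : ℕ) (x : E N) : gb N e j m x = tq e 1 0 (cc N + j) m x := by
  unfold gb tq qq
  rw [sub_zero, one_pow]
  ring

/-- `-Δ` is triangular on the span of the `gb N e j m`, `m ≤ j` -/
theorem exists_gbD (hN : 3 ≤ N) {e : E N} (he : ‖e‖ = 1) {j m : ℕ} (hm : m ≤ j) :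
    ∃ w : LV N, Weak univ w (fun x => 4 / (1 + ‖x‖ ^ 2) ^ 2 *
        ((cc N + j) * (cc N + j + 1) * gb N e j m x
          - (cc N + j) * (j - m) * gb N e (j - 1) m x
          - m * (m - 1) / 4 * gb N e (j - 2) (m - 2) x)) ∧
      fn w =ᵐ[volume] gb N e j m := by
  have hmj : (m : ℝ) ≤ j := by exact_mod_cast hm
  obtain ⟨w, hw, hw'⟩ := exists_of_dec hN
    ((dec_tq hN he one_pos (0 : E N) (a := cc N + j) (m := m) (by linarith)).congr
      (gb_eq_tq e j m))
  refine ⟨w, ?_, hw'⟩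
  have hfun : gb N e j m = tq e 1 0 (cc N + j) m := funext (gb_eq_tq e j m)
  have key : (fun x => -lap (gb N e j m) x) = (fun x => 4 / (1 + ‖x‖ ^ 2) ^ 2 *
        ((cc N + j) * (cc N + j + 1) * gb N e j m x
          - (cc N + j) * (j - m) * gb N e (j - 1) m x
          - m * (m - 1) / 4 * gb N e (j - 2) (m - 2) x)) := by
    ext x
    rw [hfun, (J2_tq he one_pos (0 : E N) x (cc N + j) m).2.2, ← hfun]
    have hq : 0 < 1 + ‖x‖ ^ 2 := by positivity
    have eq1 : qq 1 (0 : E N) x = 1 + ‖x‖ ^ 2 := by unfold qq; rw [sub_zero, one_pow]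
    rw [eq1, sub_zero]
    unfold gb
    have e1 : (1 + ‖x‖ ^ 2) ^ (-(cc N + (j : ℝ)) - 1)
        = (1 + ‖x‖ ^ 2) ^ (-(cc N + (j : ℝ))) / (1 + ‖x‖ ^ 2) := Real.rpow_sub_one hq.ne' _
    have e2 : (1 + ‖x‖ ^ 2) ^ (-(cc N + (j : ℝ)) - 2)
        = (1 + ‖x‖ ^ 2) ^ (-(cc N + (j : ℝ))) / (1 + ‖x‖ ^ 2) ^ 2 := by
      rw [Real.rpow_sub hq]
      norm_cast
    rw [e1, e2]
    have e3 : ((j : ℝ) - m) * (1 + ‖x‖ ^ 2) ^ (-(cc N + ((j - 1 : ℕ) : ℝ)))
        = ((j : ℝ) - m) * ((1 + ‖x‖ ^ 2) ^ (-(cc N + (j : ℝ))) * (1 + ‖x‖ ^ 2)) := by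
      rcases j with _ | j
      · have : m = 0 := by omega
        subst this
        simp
      · rw [← Real.rpow_add_one hq.ne']
        congr 2
        push_cast
        ring
    have e4 : (m : ℝ) * (m - 1) * (1 + ‖x‖ ^ 2) ^ (-(cc N + ((j - 2 : ℕ) : ℝ)))
        = (m : ℝ) * (m - 1) * ((1 + ‖x‖ ^ 2) ^ (-(cc N + (j : ℝ))) * (1 + ‖x‖ ^ 2) ^ 2) := by
      rcases m with _ | _ | m
      · simp
      · simp
      · have : 2 ≤ j := by omega
        obtain ⟨k, rfl⟩ : ∃ k, j = k + 2 := ⟨j - 2, by omega⟩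
        rw [← Real.rpow_natCast (1 + ‖x‖ ^ 2) 2, ← Real.rpow_add hq]
        congr 2
        push_cast
        simp
        ring
    have e5 : (cc N + (j : ℝ)) * ((j : ℝ) - m) * ((1 + ‖x‖ ^ 2) ^ (-(cc N + ((j - 1 : ℕ) : ℝ)))
          * ⟪x, e⟫ ^ m) = (cc N + (j : ℝ)) * (((j : ℝ) - m)
            * (1 + ‖x‖ ^ 2) ^ (-(cc N + ((j - 1 : ℕ) : ℝ)))) * ⟪x, e⟫ ^ m := by ring
    have e6 : (m : ℝ) * (m - 1) / 4 * ((1 + ‖x‖ ^ 2) ^ (-(cc N + ((j - 2 : ℕ) : ℝ)))
          * ⟪x, e⟫ ^ (m - 2)) = ((m : ℝ) * (m - 1)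
            * (1 + ‖x‖ ^ 2) ^ (-(cc N + ((j - 2 : ℕ) : ℝ)))) / 4 * ⟪x, e⟫ ^ (m - 2) := by ring
    rw [e5, e6, e3, e4]
    generalize (1 + ‖x‖ ^ 2) ^ (-(cc N + (j : ℝ))) = T
    field_simp
    ring
  rw [← key]
  exact hw

/-! ### density -/

namespace G1

/-- the map `x ↦ (1/(1+|x|²), x·e/(1+|x|²))` -/
def pj (e : E N) (x : E N) : ℝ × ℝ := ((1 + ‖x‖ ^ 2)⁻¹, ⟪x, e⟫ * (1 + ‖x‖ ^ 2)⁻¹)

theorem pj_continuous (e : E N) : Continuous (pj e) := by
  have h : Continuous fun x : E N => (1 + ‖x‖ ^ 2)⁻¹ :=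
    Continuous.inv₀ (by fun_prop) fun x => by positivity
  exact h.prodMk ((continuous_id.inner continuous_const).mul h)

/-- the compact rectangle -/
def KK : Set (ℝ × ℝ) := Icc (0 : ℝ) 1 ×ˢ Icc (-1 : ℝ) 1

theorem isCompact_KK : IsCompact KK := isCompact_Icc.prod isCompact_Icc

theorem pj_mem {e : E N} (he : ‖e‖ = 1) (x : E N) : pj e x ∈ KK := by
  have hq : 0 < 1 + ‖x‖ ^ 2 := by positivity
  have h1 : |⟪x, e⟫| ≤ ‖x‖ := by
    have := abs_real_inner_le_norm x e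
    rwa [he, mul_one] at this
  have h2 : |⟪x, e⟫ * (1 + ‖x‖ ^ 2)⁻¹| ≤ 1 := by
    rw [abs_mul, abs_of_pos (inv_pos.2 hq), ← div_eq_mul_inv, div_le_one hq]
    nlinarith [norm_nonneg x, sq_nonneg (‖x‖ - 1)]
  refine ⟨⟨by show 0 ≤ (1 + ‖x‖ ^ 2)⁻¹; positivity, ?_⟩, abs_le.1 h2⟩
  show (1 + ‖x‖ ^ 2)⁻¹ ≤ 1
  exact inv_le_one_of_one_le₀ (by nlinarith [sq_nonneg ‖x‖])

/-- `pj` as a map to `KK` -/
def pk {e : E N} (he : ‖e‖ = 1) (x : E N) : KK := ⟨pj e x, pj_mem he x⟩

theorem pk_continuous {e : E N} (he : ‖e‖ = 1) : Continuous (pk he) :=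
  (pj_continuous e).subtype_mk _

theorem int_cont_zero {e : E N} (he : ‖e‖ = 1) {f : E N → ℝ} (hf : Integrable f)
    (h : ∀ i k : ℕ, ∫ x, (pj e x).1 ^ i * (pj e x).2 ^ k * f x = 0) (g : C(KK, ℝ)) :
    ∫ x, g (pk he x) * f x = 0 := by
  have : CompactSpace KK := isCompact_iff_compactSpace.1 isCompact_KK
  have hint : ∀ a : C(KK, ℝ), Integrable (fun x => a (pk he x) * f x) := by
    intro a
    refine hf.bdd_mul (c := ‖a‖) (a.continuous.comp (pk_continuous he)).aestronglyMeasurable ?_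
    exact Eventually.of_forall fun x => a.norm_coe_le_norm _
  let X0 : C(KK, ℝ) := ⟨fun p => p.1.1, by fun_prop⟩
  let X1 : C(KK, ℝ) := ⟨fun p => p.1.2, by fun_prop⟩
  let A : Subalgebra ℝ C(KK, ℝ) := Algebra.adjoin ℝ {X0, X1}
  have hsep : A.SeparatesPoints := by
    intro p q hpq
    by_cases h1 : p.1.1 = q.1.1
    · refine ⟨X1, ⟨X1, Algebra.subset_adjoin (by simp), rfl⟩, ?_⟩
      intro h2
      exact hpq (Subtype.ext (Prod.ext h1 h2))
    · exact ⟨X0, ⟨X0, Algebra.subset_adjoin (by simp), rfl⟩, h1⟩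
  have htop := ContinuousMap.subalgebra_topologicalClosure_eq_top_of_separatesPoints A hsep
  -- the functional vanishes on `A`
  have hA : ∀ a ∈ A, ∫ x, a (pk he x) * f x = 0 := by
    intro a ha
    have ha' : a ∈ Submodule.span ℝ (Submonoid.closure {X0, X1} : Set C(KK, ℝ)) := by
      rw [← Algebra.adjoin_eq_span]
      exact ha
    clear ha
    induction ha' using Submodule.span_induction with
    | mem a ha =>
      obtain ⟨i, k, rfl⟩ := (Submonoid.mem_closure_pair _ _ _).1 ha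
      exact h i k
    | zero => simp
    | add a b _ _ iha ihb =>
      have e1 : ∀ x, (a + b) (pk he x) * f x = a (pk he x) * f x + b (pk he x) * f x := by
        intro x
        rw [ContinuousMap.add_apply, add_mul]
      simp only [e1]
      rw [integral_add (hint a) (hint b), iha, ihb, add_zero]
    | smul c a _ iha =>
      have e1 : ∀ x, (c • a) (pk he x) * f x = c * (a (pk he x) * f x) := by
        intro x
        rw [ContinuousMap.smul_apply, smul_eq_mul, mul_assoc]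
      simp only [e1]
      rw [integral_const_mul, iha, mul_zero]
  -- density
  have hg : g ∈ closure (A : Set C(KK, ℝ)) := by
    have : g ∈ A.topologicalClosure := by rw [htop]; trivial
    exact this
  have hI : 0 ≤ ∫ x, |f x| := integral_nonneg fun x => abs_nonneg _
  by_contra hne
  have hpos : 0 < |∫ x, g (pk he x) * f x| := abs_pos.2 hne
  obtain ⟨a, haA, hag⟩ := Metric.mem_closure_iff.1 hg
    (|∫ x, g (pk he x) * f x| / (1 + ∫ x, |f x|)) (by positivity)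
  have h1 : ∫ x, g (pk he x) * f x = ∫ x, (g (pk he x) * f x - a (pk he x) * f x) := by
    rw [integral_sub (hint g) (hint a), hA a haA, sub_zero]
  have h2 : |∫ x, g (pk he x) * f x| ≤ ∫ x, ‖g - a‖ * |f x| := by
    rw [h1]
    have h3 := norm_integral_le_integral_norm (μ := (volume : Measure (E N)))
      (fun x => g (pk he x) * f x - a (pk he x) * f x)
    rw [Real.norm_eq_abs] at h3
    refine h3.trans ?_
    refine integral_mono_of_nonneg (Eventually.of_forall fun x => norm_nonneg _)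
      (hf.abs.const_mul _) (Eventually.of_forall fun x => ?_)
    show ‖g (pk he x) * f x - a (pk he x) * f x‖ ≤ _
    rw [← sub_mul, norm_mul, Real.norm_eq_abs (f x)]
    exact mul_le_mul_of_nonneg_right ((g - a).norm_coe_le_norm _) (abs_nonneg _)
  rw [integral_const_mul] at h2
  rw [dist_eq_norm, lt_div_iff₀ (by positivity)] at hag
  nlinarith [norm_nonneg (g - a)]

theorem ae_zero_of_moments {e : E N} (he : ‖e‖ = 1) {f : E N → ℝ} (hf : Integrable f)
    (h : ∀ i k : ℕ, ∫ x, (pj e x).1 ^ i * (pj e x).2 ^ k * f x = 0)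
    {F : ℝ × ℝ → ℝ} (hF : Measurable F) (hfF : ∀ᵐ x, f x = F (pj e x)) :
    f =ᵐ[volume] fun _ => 0 := by
  set μp : Measure (E N) := volume.withDensity (fun x => ENNReal.ofReal (f x)) with hμp
  set μm : Measure (E N) := volume.withDensity (fun x => ENNReal.ofReal (- f x)) with hμm
  have hfinp : IsFiniteMeasure μp := isFiniteMeasure_withDensity_ofReal hf.2
  have hfinm : IsFiniteMeasure μm := isFiniteMeasure_withDensity_ofReal hf.neg.2
  have hpm : Measurable (pj e) := (pj_continuous e).measurable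
  have hfinp' : IsFiniteMeasure (μp.map (pj e)) := by infer_instance
  have hfinm' : IsFiniteMeasure (μm.map (pj e)) := by infer_instance
  have haem : AEMeasurable (fun x => ENNReal.ofReal (f x)) volume := hf.aemeasurable.ennreal_ofReal
  have haem' : AEMeasurable (fun x => ENNReal.ofReal (- f x)) volume :=
    hf.neg.aemeasurable.ennreal_ofReal
  have hmeas : μp.map (pj e) = μm.map (pj e) := by
    refine ext_of_forall_integral_eq_of_IsFiniteMeasure fun g => ?_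
    rw [integral_map hpm.aemeasurable g.continuous.aestronglyMeasurable,
      integral_map hpm.aemeasurable g.continuous.aestronglyMeasurable, hμp, hμm,
      integral_withDensity_eq_integral_toReal_smul₀ haem
        (Eventually.of_forall fun x => ENNReal.ofReal_lt_top),
      integral_withDensity_eq_integral_toReal_smul₀ haem'
        (Eventually.of_forall fun x => ENNReal.ofReal_lt_top)]
    have hb : ∀ u : E N → ℝ, Integrable u → Integrable (fun x => u x * g (pj e x)) := by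
      intro u hu
      have := hu.bdd_mul (c := ‖g‖) (f := fun x => g (pj e x))
        (g.continuous.comp (pj_continuous e)).aestronglyMeasurable
        (Eventually.of_forall fun x => g.norm_coe_le_norm _)
      simpa only [mul_comm] using this
    have h0 : ∫ x, f x * g (pj e x) = 0 := by
      have := int_cont_zero he hf h ⟨fun p => g p.1, g.continuous.comp continuous_subtype_val⟩
      simpa only [ContinuousMap.coe_mk, mul_comm, pk] using this
    rw [← sub_eq_zero, ← integral_sub]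
    · rw [← h0]
      refine integral_congr_ae (Eventually.of_forall fun x => ?_)
      simp only [smul_eq_mul, ENNReal.toReal_ofReal']
      rcases le_total 0 (f x) with hx | hx
      · rw [max_eq_left hx, max_eq_right (by linarith)]
        ring
      · rw [max_eq_right hx, max_eq_left (by linarith)]
        ring
    · simp only [smul_eq_mul, ENNReal.toReal_ofReal']
      exact hb _ hf.pos_part
    · simp only [smul_eq_mul, ENNReal.toReal_ofReal']
      exact hb _ hf.neg_part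
  have key : ∀ B : Set (ℝ × ℝ), MeasurableSet B →
      ∫⁻ x in pj e ⁻¹' B, ENNReal.ofReal (f x) = ∫⁻ x in pj e ⁻¹' B, ENNReal.ofReal (- f x) := by
    intro B hB
    have : μp.map (pj e) B = μm.map (pj e) B := by rw [hmeas]
    rw [Measure.map_apply hpm hB, Measure.map_apply hpm hB, hμp, hμm,
      withDensity_apply _ (hpm hB), withDensity_apply _ (hpm hB)] at this
    exact this
  have hle : ∀ᵐ x, f x ≤ 0 := by
    have hB : MeasurableSet {p | 0 < F p} := measurableSet_lt measurable_const hF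
    have h1 := key _ hB
    have h2 : ∫⁻ x in pj e ⁻¹' {p | 0 < F p}, ENNReal.ofReal (- f x) = 0 := by
      rw [setLIntegral_congr_fun_ae (g := fun _ => 0) (hpm hB)]
      · simp
      · filter_upwards [hfF] with x hx hxB
        rw [hx]
        exact ENNReal.ofReal_of_nonpos (by simpa using (le_of_lt (show 0 < F (pj e x) from hxB)))
    rw [h2, lintegral_eq_zero_iff' haem.restrict] at h1
    rw [EventuallyEq, ae_restrict_iff' (hpm hB)] at h1
    filter_upwards [h1, hfF] with x hx hxF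
    by_contra hlt
    push Not at hlt
    have := hx (show 0 < F (pj e x) by rw [← hxF]; exact hlt)
    simp only [Pi.zero_apply, ENNReal.ofReal_eq_zero] at this
    linarith
  have hge : ∀ᵐ x, 0 ≤ f x := by
    have hB : MeasurableSet {p | F p < 0} := measurableSet_lt hF measurable_const
    have h1 := key _ hB
    have h2 : ∫⁻ x in pj e ⁻¹' {p | F p < 0}, ENNReal.ofReal (f x) = 0 := by
      rw [setLIntegral_congr_fun_ae (g := fun _ => 0) (hpm hB)]
      · simp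
      · filter_upwards [hfF] with x hx hxB
        rw [hx]
        exact ENNReal.ofReal_of_nonpos (le_of_lt (show F (pj e x) < 0 from hxB))
    rw [h2, eq_comm, lintegral_eq_zero_iff' haem'.restrict] at h1
    rw [EventuallyEq, ae_restrict_iff' (hpm hB)] at h1
    filter_upwards [h1, hfF] with x hx hxF
    by_contra hlt
    push Not at hlt
    have := hx (show F (pj e x) < 0 by rw [← hxF]; exact hlt)
    simp only [Pi.zero_apply, ENNReal.ofReal_eq_zero] at this
    linarith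
  filter_upwards [hle, hge] with x h1 h2
  exact le_antisymm h1 h2

theorem weight_integrable (hN : 3 ≤ N) {h : E N → ℝ} (h2 : Mq (ts N) univ h) :
    Integrable (fun x => 4 / (1 + ‖x‖ ^ 2) ^ 2 * (1 + ‖x‖ ^ 2) ^ (-cc N) * h x) := by
  have hNr : (3 : ℝ) ≤ N := by exact_mod_cast hN
  have hts : 0 < ts N := by unfold ts; apply div_pos <;> linarith
  have htd : 0 < td N := by unfold td; positivity
  have hconj : ENNReal.HolderConjugate (ENNReal.ofReal (td N)) (ENNReal.ofReal (ts N)) := by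
    have : (td N).HolderConjugate (ts N) := by
      refine Real.holderConjugate_iff.2 ⟨?_, ?_⟩
      · unfold td
        rw [lt_div_iff₀ (by linarith)]
        linarith
      · unfold td ts
        have : (N : ℝ) - 2 ≠ 0 := by linarith
        field_simp
        ring
    exact Real.HolderConjugate.ennrealOfReal this
  unfold Mq at h2
  rw [Measure.restrict_univ] at h2
  have hcont : Continuous fun x : E N => 4 / (1 + ‖x‖ ^ 2) ^ 2 * (1 + ‖x‖ ^ 2) ^ (-cc N) := by
    refine Continuous.mul (Continuous.div continuous_const (by fun_prop) fun x => by positivity) ?_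
    exact Continuous.rpow_const (by fun_prop) fun x => Or.inl (by positivity)
  have hw : MemLp (fun x : E N => 4 / (1 + ‖x‖ ^ 2) ^ 2 * (1 + ‖x‖ ^ 2) ^ (-cc N))
      (ENNReal.ofReal (td N)) volume := by
    rw [← integrable_norm_rpow_iff hcont.aestronglyMeasurable (by simpa using htd)
      ENNReal.ofReal_ne_top]
    rw [ENNReal.toReal_ofReal htd.le]
    have hJ : Integrable (fun x : E N => ((1 : ℝ) + ‖x‖ ^ 2) ^ (-(2 * N : ℝ) / 2)) volume :=
      integrable_rpow_neg_one_add_norm_sq (by simp; linarith)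
    refine (hJ.const_mul (4 ^ td N)).congr (Eventually.of_forall fun x => ?_)
    have hq : 0 < 1 + ‖x‖ ^ 2 := by positivity
    have e1 : 4 / (1 + ‖x‖ ^ 2) ^ 2 * (1 + ‖x‖ ^ 2) ^ (-cc N) = 4 * (1 + ‖x‖ ^ 2) ^ (-cc N - 2) := by
      rw [Real.rpow_sub hq]
      norm_cast
      ring
    simp only [e1]
    rw [Real.norm_of_nonneg (by positivity), Real.mul_rpow (by norm_num) (by positivity),
      ← Real.rpow_mul hq.le]
    congr 2
    unfold cc td
    field_simp
    ring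
  exact hw.integrable_mul h2

end G1

/-- density: an axial function orthogonal (with weight) to all `gb N e j m` vanishes -/
theorem gb_dense (hN : 3 ≤ N) {e : E N} (he : ‖e‖ = 1) {h : E N → ℝ} (hA : Axial e h)
    (h2 : Mq (ts N) univ h)
    (horth : ∀ j m : ℕ, m ≤ j → ∫ x, 4 / (1 + ‖x‖ ^ 2) ^ 2 * gb N e j m x * h x = 0) :
    h =ᵐ[volume] fun _ => 0 := by
  obtain ⟨k, hk, hhk⟩ := hA
  have hint := weight_integrable hN h2
  have h0 : (fun x => 4 / (1 + ‖x‖ ^ 2) ^ 2 * (1 + ‖x‖ ^ 2) ^ (-cc N) * h x)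
      =ᵐ[volume] fun _ => 0 := by
    refine ae_zero_of_moments he hint (F := fun p => 4 * p.1 ^ 2 * p.1 ^ (cc N) *
      k (Real.sqrt (p.1⁻¹ - 1), p.2 / p.1)) ?_ ?_ ?_
    · intro i m
      rw [← horth (i + m) m (by omega)]
      refine integral_congr_ae (Eventually.of_forall fun x => ?_)
      have hq : 0 < 1 + ‖x‖ ^ 2 := by positivity
      have e1 : (1 + ‖x‖ ^ 2) ^ (-(cc N + ((i + m : ℕ) : ℝ)))
          = (1 + ‖x‖ ^ 2) ^ (-cc N) * ((1 + ‖x‖ ^ 2)⁻¹) ^ (i + m) := by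
        rw [neg_add, Real.rpow_add hq, Real.rpow_neg hq.le ((i + m : ℕ) : ℝ), Real.rpow_natCast,
          inv_pow]
      simp only [gb, pj, e1]
      rw [mul_pow, pow_add]
      ring
    · refine Measurable.mul ?_ (hk.comp ?_)
      · fun_prop
      · fun_prop
    · filter_upwards [hhk] with x hx
      have hq : 0 < 1 + ‖x‖ ^ 2 := by positivity
      simp only [pj]
      have e1 : Real.sqrt ((1 + ‖x‖ ^ 2)⁻¹⁻¹ - 1) = ‖x‖ := by
        rw [inv_inv, add_sub_cancel_left, Real.sqrt_sq (norm_nonneg x)]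
      have e2 : ⟪x, e⟫ * (1 + ‖x‖ ^ 2)⁻¹ / (1 + ‖x‖ ^ 2)⁻¹ = ⟪x, e⟫ := by
        field_simp
      rw [e1, e2, hx, Real.inv_rpow hq.le, ← Real.rpow_neg hq.le, inv_pow]
      ring
  filter_upwards [h0] with x hx
  have hq : 0 < 1 + ‖x‖ ^ 2 := by positivity
  have h3 : 4 / (1 + ‖x‖ ^ 2) ^ 2 * (1 + ‖x‖ ^ 2) ^ (-cc N) ≠ 0 := by positivity
  exact (mul_eq_zero.1 hx).resolve_left h3


end Pool.Agent.helper13.BN
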