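import Pool.Agent.helper13.BN.Defs3
import Pool.Agent.helper16.BN.Chain
import Pool.Agent.helper91.BN.TAx
import Pool.Agent.helper11.BN.Gap1
import Pool.Agent.helper68.BN.BubInt2

/-!
# MP_94a57f_an: the projected bubble (module BN-D1)
-/

set_option autoImplicit false
open MeasureTheory Filter Topology Set Metric
open scoped ContDiff Gradient RealInnerProductSpace ENNReal

noncomputable section
namespace Pool.Agent.helper13.BN
variable {N : ℕ}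

namespace PJ

/-! ### the annulus -/

theorem ann_open (ρ : ℝ) : IsOpen (ann N ρ) :=
  (isOpen_lt continuous_const continuous_norm).inter (isOpen_lt continuous_norm continuous_const)

theorem ann_sub (ρ : ℝ) : ann N ρ ⊆ ball (0 : E N) 1 := fun x hx => by
  simpa using hx.2

theorem ann_bdd (ρ : ℝ) : Bornology.IsBounded (ann N ρ) := isBounded_ball.subset (ann_sub ρ)

theorem ann_closure {ρ : ℝ} {x : E N} (hx : x ∈ closure (ann N ρ)) : ρ ≤ ‖x‖ ∧ ‖x‖ ≤ 1 := by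
  have hc : IsClosed {x : E N | ρ ≤ ‖x‖ ∧ ‖x‖ ≤ 1} :=
    (isClosed_le continuous_const continuous_norm).inter
      (isClosed_le continuous_norm continuous_const)
  have hsub : ann N ρ ⊆ {x : E N | ρ ≤ ‖x‖ ∧ ‖x‖ ≤ 1} := fun y hy => ⟨hy.1.le, hy.2.le⟩
  exact closure_minimal hsub hc hx

theorem ann_frontier {ρ : ℝ} {x : E N} (hx : x ∈ frontier (ann N ρ)) : ‖x‖ = ρ ∨ ‖x‖ = 1 := by
  have h1 := ann_closure hx.1
  have h2 : x ∉ ann N ρ := by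
    have := hx.2
    rwa [(ann_open ρ).interior_eq] at this
  by_contra h3
  push Not at h3
  exact h2 ⟨lt_of_le_of_ne h1.1 (Ne.symm h3.1), lt_of_le_of_ne h1.2 h3.2⟩

theorem Mq_cont {f : E N → ℝ} (hf : Continuous f) (q ρ : ℝ) : Mq q (ann N ρ) f := by
  obtain ⟨C, hC⟩ := (isCompact_closedBall (0 : E N) 1).exists_bound_of_continuousOn hf.continuousOn
  have hfin : IsFiniteMeasure (volume.restrict (ann N ρ)) :=
    ⟨by
      rw [Measure.restrict_apply_univ]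
      exact (measure_mono (ann_sub ρ)).trans_lt measure_ball_lt_top⟩
  refine MemLp.of_bound hf.aestronglyMeasurable C ?_
  rw [ae_restrict_iff' (ann_open ρ).measurableSet]
  exact Eventually.of_forall fun x hx => hC x (ball_subset_closedBall (ann_sub ρ hx))

/-! ### comparison for `T` -/

theorem fn_T_neg (hN : 3 ≤ N) {ρ : ℝ} {g : E N → ℝ} (hg : Mq (td N) (ann N ρ) g) :
    fn (T (ann N ρ) (fun x => - g x)) =ᵐ[volume] fun x => - fn (T (ann N ρ) g) x := by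
  have h1 := T_smul hN (ann_open ρ).measurableSet (-1) hg
  have h2 : (fun x => (-1 : ℝ) * g x) = fun x => - g x := by ext x; ring
  rw [h2] at h1
  rw [h1]
  have h3 := fn_smul hN (-1) (DD_mono (subset_univ _) (T_mem (ann N ρ) g))
  filter_upwards [h3] with x hx
  rw [hx]
  ring

theorem comp_up (hN : 3 ≤ N) {ρ : ℝ} {ψ g : E N → ℝ} {V : Set (E N)}
    (hV : IsOpen V) (hcl : closedBall (0 : E N) 1 ⊆ V) (hψ : ContDiffOn ℝ 2 ψ V)
    (hout : ∀ x : E N, ‖x‖ = 1 → 0 ≤ ψ x) (hin : ∀ x : E N, ‖x‖ = ρ → 0 ≤ ψ x)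
    (hg : Mq (td N) (ann N ρ) g) (hle : ∀ x ∈ ann N ρ, g x ≤ - lap ψ x) :
    ∀ᵐ x, x ∈ ann N ρ → fn (T (ann N ρ) g) x ≤ ψ x := by
  refine comp hN (ann_open ρ) (ann_bdd ρ) hV (fun x hx => hcl ?_) hψ (fun x hx => ?_) hg
    (T_weak hN (ann_open ρ).measurableSet hg) (Eventually.of_forall hle)
  · simpa using (ann_closure hx).2
  · rcases ann_frontier hx with h | h
    · exact hin x h
    · exact hout x h

theorem comp_low (hN : 3 ≤ N) {ρ : ℝ} {ψ g : E N → ℝ} {V : Set (E N)}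
    (hV : IsOpen V) (hcl : closedBall (0 : E N) 1 ⊆ V) (hψ : ContDiffOn ℝ 2 ψ V)
    (hout : ∀ x : E N, ‖x‖ = 1 → ψ x ≤ 0) (hin : ∀ x : E N, ‖x‖ = ρ → ψ x ≤ 0)
    (hg : Mq (td N) (ann N ρ) g) (hle : ∀ x ∈ ann N ρ, - lap ψ x ≤ g x) :
    ∀ᵐ x, x ∈ ann N ρ → ψ x ≤ fn (T (ann N ρ) g) x := by
  have hV' : ∀ x ∈ ann N ρ, ContDiffAt ℝ 2 ψ x := fun x hx =>
    (hψ x (hcl (ball_subset_closedBall (ann_sub ρ hx)))).contDiffAt
      (hV.mem_nhds (hcl (ball_subset_closedBall (ann_sub ρ hx))))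
  have h1 := comp_up hN (g := fun x => - g x) (ψ := fun x => (-1) * ψ x) hV hcl
    (contDiffOn_const.mul hψ) (fun x hx => by linarith [hout x hx])
    (fun x hx => by linarith [hin x hx]) hg.neg (fun x hx => by
      rw [lap_const_mul (-1) (hV' x hx)]
      linarith [hle x hx])
  filter_upwards [h1, fn_T_neg hN hg] with x hx h2 hxa
  have := hx hxa
  rw [h2] at this
  linarith

/-! ### the image function -/

/-- `|ξ|²|x|² - 2 x·ξ + 1` -/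
def PP (ξ x : E N) : ℝ := ‖ξ‖ ^ 2 * ‖x‖ ^ 2 - 2 * ⟪x, ξ⟫ + 1

theorem PP_eq (ξ x : E N) : PP ξ x = ‖x - ξ‖ ^ 2 + (1 - ‖ξ‖ ^ 2) * (1 - ‖x‖ ^ 2) := by
  unfold PP
  rw [norm_sub_sq_real]
  ring

theorem PP_ge {ξ x : E N} : (1 - ‖ξ‖ * ‖x‖) ^ 2 ≤ PP ξ x := by
  unfold PP
  have := real_inner_le_norm x ξ
  nlinarith

theorem PP_ge' {ξ x : E N} {d : ℝ} (hd : 0 < d) (hξ : ‖ξ‖ = 1 - d) (hx : ‖x‖ ≤ 1) :
    d ^ 2 ≤ PP ξ x := by
  refine le_trans ?_ PP_ge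
  have h0 : 0 ≤ ‖ξ‖ := norm_nonneg _
  have h1 : ‖ξ‖ * ‖x‖ ≤ 1 - d := by rw [← hξ]; nlinarith
  apply pow_le_pow_left₀ hd.le
  linarith

theorem PP_continuous (ξ : E N) : Continuous (PP ξ) := by
  unfold PP
  fun_prop

/-- the image function -/
def GG (ξ x : E N) : ℝ := PP ξ x ^ (-cc N)

theorem J2_GG {ξ x : E N} (hP : 0 < PP ξ x) : ∃ G : E N, J2 (GG ξ) x G 0 := by
  have h1 : J2 (PP ξ) x (‖ξ‖ ^ 2 • ((2 : ℝ) • (x - 0)) + (-2 : ℝ) • ξ + 0)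
      (‖ξ‖ ^ 2 * (2 * N) + (-2) * 0 + 0) := by
    refine ((((J2_norm_sq (0 : E N) x).const_mul (‖ξ‖ ^ 2)).add
      ((J2_inner ξ x).const_mul (-2))).add (J2.const 1 x)).congr
        (Eventually.of_forall fun y => ?_) rfl rfl
    unfold PP
    simp only [sub_zero]
    ring
  have hg : ContDiffAt ℝ 2 (fun t : ℝ => t ^ (-cc N)) (PP ξ x) :=
    Real.contDiffAt_rpow_const_of_ne hP.ne'
  have h2 := h1.comp hg
  have e1 : deriv (fun t : ℝ => t ^ (-cc N)) (PP ξ x)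
      = (-cc N) * PP ξ x ^ (-cc N - 1) :=
    (Real.hasDerivAt_rpow_const (Or.inl hP.ne')).deriv
  have e2 : deriv (deriv (fun t : ℝ => t ^ (-cc N))) (PP ξ x)
      = (-cc N) * ((-cc N - 1) * PP ξ x ^ (-cc N - 2)) := by
    have h3 : deriv (fun t : ℝ => t ^ (-cc N)) =ᶠ[𝓝 (PP ξ x)]
        fun t => (-cc N) * t ^ (-cc N - 1) := by
      filter_upwards [eventually_gt_nhds hP] with t ht
      exact (Real.hasDerivAt_rpow_const (Or.inl ht.ne')).deriv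
    rw [h3.deriv_eq]
    have h4 : HasDerivAt (fun t : ℝ => (-cc N) * t ^ (-cc N - 1))
        ((-cc N) * ((-cc N - 1) * PP ξ x ^ (-cc N - 1 - 1))) (PP ξ x) :=
      (Real.hasDerivAt_rpow_const (Or.inl hP.ne')).const_mul _
    rw [h4.deriv]
    norm_num [sub_sub]
  have e3 : ‖‖ξ‖ ^ 2 • ((2 : ℝ) • (x - 0)) + (-2 : ℝ) • ξ + 0‖ ^ 2 = 4 * ‖ξ‖ ^ 2 * PP ξ x := by
    rw [add_zero, sub_zero, smul_smul, norm_add_sq_real, norm_smul, norm_smul,
      real_inner_smul_left, real_inner_smul_right]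
    unfold PP
    simp only [Real.norm_eq_abs, abs_mul, abs_neg, abs_two, abs_pow, abs_norm]
    ring
  refine ⟨_, h2.congr (Eventually.of_forall fun y => rfl) rfl ?_⟩
  rw [e1, e2, e3]
  have e4 : PP ξ x ^ (-cc N - 1) = PP ξ x ^ (-cc N - 2) * PP ξ x := by
    rw [← Real.rpow_add_one hP.ne']
    congr 1
    ring
  rw [e4]
  unfold cc
  ring

/-! ### elementary estimates -/

theorem rpow_near (c : ℝ) (hc : 0 < c) : ∃ C : ℝ, 0 < C ∧ ∀ q : ℝ, 1 / 4 ≤ q →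
    |q ^ (-c) - 1| ≤ C * |q - 1| := by
  refine ⟨c * (1 / 4) ^ (-c - 1), by positivity, fun q hq => ?_⟩
  have hconv : Convex ℝ (Ici (1 / 4 : ℝ)) := convex_Ici _
  have hd : ∀ t ∈ Ici (1 / 4 : ℝ), HasDerivWithinAt (fun t : ℝ => t ^ (-c)) (-c * t ^ (-c - 1))
      (Ici (1 / 4 : ℝ)) t := by
    intro t ht
    have ht0 : (0 : ℝ) < t := lt_of_lt_of_le (by norm_num) ht
    exact (Real.hasDerivAt_rpow_const (Or.inl ht0.ne')).hasDerivWithinAt
  have hb : ∀ t ∈ Ici (1 / 4 : ℝ), ‖-c * t ^ (-c - 1)‖ ≤ c * (1 / 4) ^ (-c - 1) := by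
    intro t ht
    have ht0 : (0 : ℝ) < t := lt_of_lt_of_le (by norm_num) ht
    rw [Real.norm_eq_abs, abs_mul, abs_neg, abs_of_pos hc, abs_of_pos (by positivity)]
    exact mul_le_mul_of_nonneg_left
      (Real.rpow_le_rpow_of_nonpos (by norm_num) ht (by linarith)) hc.le
  have h := hconv.norm_image_sub_le_of_norm_hasDerivWithin_le hd hb
    (show (1 : ℝ) ∈ Ici (1 / 4 : ℝ) by simp; norm_num) (show q ∈ Ici (1 / 4 : ℝ) from hq)
  simpa using h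

theorem norm_cen {e : E N} (he : ‖e‖ = 1) {d : ℝ} (hd : d < 1) : ‖cen e d‖ = 1 - d := by
  unfold cen
  rw [norm_smul, he, mul_one, Real.norm_eq_abs, abs_of_pos (by linarith)]

/-- `1 - |x|²` in terms of `x - ξ` -/
theorem one_sub_sq (ξ x : E N) : 1 - ‖x‖ ^ 2 = (1 - ‖ξ‖ ^ 2) - 2 * ⟪ξ, x - ξ⟫ - ‖x - ξ‖ ^ 2 := by
  rw [norm_sub_sq_real, inner_sub_right, real_inner_self_eq_norm_sq, real_inner_comm ξ x]
  ring

theorem PP_near {ξ x : E N} {d : ℝ} (hd : 0 < d) (hd1 : d < 1) (hξ : ‖ξ‖ = 1 - d)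
    (hr : ‖x - ξ‖ ≤ d) : |PP ξ x - 4 * d ^ 2| ≤ 7 * (d * ‖x - ξ‖) + 5 * d ^ 3 := by
  rw [PP_eq, one_sub_sq ξ x, hξ]
  set r := ‖x - ξ‖ with hrdef
  have hr0 : 0 ≤ r := norm_nonneg _
  have hin : |⟪ξ, x - ξ⟫| ≤ r := by
    refine (abs_real_inner_le_norm _ _).trans ?_
    rw [hξ]
    nlinarith
  set s := ⟪ξ, x - ξ⟫ with hs
  have h1 := abs_le.1 hin
  have h2 : 0 < 2 * d - d ^ 2 := by nlinarith
  have h3 : 2 * d - d ^ 2 ≤ 2 * d := by nlinarith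
  have e1 : r ^ 2 + (1 - (1 - d) ^ 2) * ((1 - (1 - d) ^ 2) - 2 * s - r ^ 2) - 4 * d ^ 2
      = r ^ 2 - 4 * d ^ 3 + d ^ 4 - (2 * d - d ^ 2) * (2 * s + r ^ 2) := by ring
  rw [e1, abs_le]
  have h4 : r ^ 2 ≤ d * r := by nlinarith
  have h5 : |(2 * d - d ^ 2) * (2 * s + r ^ 2)| ≤ 2 * d * (2 * r + r) := by
    rw [abs_mul, abs_of_pos h2]
    have : |2 * s + r ^ 2| ≤ 2 * r + r := by
      rw [abs_le]
      constructor <;> nlinarith
    exact mul_le_mul h3 this (abs_nonneg _) (by linarith)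
  have h6 := abs_le.1 h5
  have h7 : 0 ≤ r ^ 2 := by positivity
  have h8 : d ^ 4 ≤ d ^ 3 := by
    have : 0 < d ^ 3 := by positivity
    nlinarith
  have h9 : 0 ≤ d ^ 4 := by positivity
  have h10 : 0 ≤ d ^ 3 := by positivity
  constructor <;> nlinarith

theorem rpow_two_neg {t c : ℝ} (ht : 0 ≤ t) : (t ^ 2) ^ (-c) = t ^ (-(2 * c)) := by
  rw [← Real.rpow_natCast, ← Real.rpow_mul ht]
  congr 1
  push_cast
  ring

theorem two_cc : -(2 * cc N) = 2 - (N : ℝ) := by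
  unfold cc
  ring

theorem sq_rpow_cc {t : ℝ} (ht : 0 ≤ t) : (t ^ 2) ^ (-cc N) = t ^ (2 - (N : ℝ)) := by
  rw [rpow_two_neg ht, two_cc]

/-- `G ≤ d^{2-N}` in the unit ball -/
theorem GG_le {ξ x : E N} {d : ℝ} (hN : 3 ≤ N) (hd : 0 < d) (hξ : ‖ξ‖ = 1 - d) (hx : ‖x‖ ≤ 1) :
    GG ξ x ≤ d ^ (2 - (N : ℝ)) := by
  rw [← sq_rpow_cc hd.le]
  exact Real.rpow_le_rpow_of_nonpos (by positivity) (PP_ge' hd hξ hx) (by linarith [BI.cc_pos hN])

theorem GG_nonneg {ξ x : E N} : 0 ≤ GG ξ x := by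
  unfold GG
  apply Real.rpow_nonneg
  exact le_trans (sq_nonneg _) PP_ge

theorem GG_near (hN : 3 ≤ N) : ∃ C : ℝ, 0 < C ∧ ∀ (ξ x : E N) (d : ℝ), 0 < d → d < 1 →
    ‖ξ‖ = 1 - d → ‖x‖ ≤ 1 →
    |GG ξ x - (2 * d) ^ (2 - (N : ℝ))| ≤ C * d ^ (2 - (N : ℝ)) * (d + ‖x - ξ‖ / d) := by
  obtain ⟨C, hC, h⟩ := rpow_near (cc N) (BI.cc_pos hN)
  refine ⟨2 * C + 1, by positivity, fun ξ x d hd hd1 hξ hx => ?_⟩
  have hN3 : (3 : ℝ) ≤ N := by exact_mod_cast hN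
  have hcc := BI.cc_pos hN
  have hdp : 0 < d ^ (2 - (N : ℝ)) := by positivity
  have hr0 : 0 ≤ ‖x - ξ‖ := norm_nonneg _
  have h2d : (2 * d) ^ (2 - (N : ℝ)) ≤ d ^ (2 - (N : ℝ)) :=
    Real.rpow_le_rpow_of_nonpos hd (by linarith) (by linarith)
  have h2d0 : 0 < (2 * d) ^ (2 - (N : ℝ)) := by positivity
  rcases le_total ‖x - ξ‖ d with hr | hr
  · have hP := PP_ge' hd hξ hx
    have hq : 1 / 4 ≤ PP ξ x / (4 * d ^ 2) := by
      rw [le_div_iff₀ (by positivity)]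
      linarith
    have h1 := h _ hq
    have e1 : GG ξ x = (2 * d) ^ (2 - (N : ℝ)) * (PP ξ x / (4 * d ^ 2)) ^ (-cc N) := by
      unfold GG
      rw [← sq_rpow_cc (by positivity), ← Real.mul_rpow (by positivity)
        (le_trans (by norm_num) hq)]
      congr 1
      field_simp
      norm_num
    rw [e1]
    have e2 : (2 * d) ^ (2 - (N : ℝ)) * (PP ξ x / (4 * d ^ 2)) ^ (-cc N) - (2 * d) ^ (2 - (N : ℝ))
        = (2 * d) ^ (2 - (N : ℝ)) * ((PP ξ x / (4 * d ^ 2)) ^ (-cc N) - 1) := by ring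
    rw [e2, abs_mul, abs_of_pos h2d0]
    have h3 : |PP ξ x / (4 * d ^ 2) - 1| ≤ 2 * (d + ‖x - ξ‖ / d) := by
      have h4 := PP_near hd hd1 hξ hr
      have e3 : PP ξ x / (4 * d ^ 2) - 1 = (PP ξ x - 4 * d ^ 2) / (4 * d ^ 2) := by
        field_simp
      rw [e3, abs_div, abs_of_pos (show 0 < 4 * d ^ 2 by positivity), div_le_iff₀ (by positivity)]
      refine h4.trans ?_
      have e4 : 2 * (d + ‖x - ξ‖ / d) * (4 * d ^ 2) = 8 * d ^ 3 + 8 * (d * ‖x - ξ‖) := by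
        field_simp
        norm_num
      rw [e4]
      have : 0 ≤ d * ‖x - ξ‖ := by positivity
      have : 0 ≤ d ^ 3 := by positivity
      linarith
    calc (2 * d) ^ (2 - (N : ℝ)) * |(PP ξ x / (4 * d ^ 2)) ^ (-cc N) - 1|
        ≤ d ^ (2 - (N : ℝ)) * (C * (2 * (d + ‖x - ξ‖ / d))) := by
          refine mul_le_mul h2d (h1.trans ?_) (abs_nonneg _) hdp.le
          gcongr
      _ ≤ _ := by
          have : 0 ≤ d ^ (2 - (N : ℝ)) * (d + ‖x - ξ‖ / d) := by positivity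
          nlinarith
  · have h1 := GG_le hN hd hξ hx
    have h2 : 0 ≤ GG ξ x := GG_nonneg
    have h3 : |GG ξ x - (2 * d) ^ (2 - (N : ℝ))| ≤ d ^ (2 - (N : ℝ)) := by
      rw [abs_le]
      constructor <;> linarith
    have h4 : 1 ≤ ‖x - ξ‖ / d := by rwa [one_le_div hd]
    calc _ ≤ d ^ (2 - (N : ℝ)) := h3
      _ ≤ _ := by
        have : 1 ≤ d + ‖x - ξ‖ / d := by linarith
        have h5 : 0 ≤ C * d ^ (2 - (N : ℝ)) * (d + ‖x - ξ‖ / d) := by positivity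
        nlinarith

/-! ### continuity, axial symmetry -/

theorem pm_pos' (hN : 3 ≤ N) : 0 < pm N := BI.pm_pos hN

theorem continuous_nl' (hN : 3 ≤ N) : Continuous (nl N) :=
  (continuous_abs.rpow_const fun _ => Or.inr (pm_pos' hN).le).mul continuous_id

theorem continuous_dnl' (hN : 3 ≤ N) : Continuous (dnl N) :=
  continuous_const.mul (continuous_abs.rpow_const fun _ => Or.inr (pm_pos' hN).le)

theorem bub_cont' (hN : 3 ≤ N) {μ : ℝ} (hμ : 0 < μ) (ξ : E N) : Continuous (bub N μ ξ) :=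
  (G1.dec_bub hN hμ ξ).1.continuous

theorem bubMu_cont' (hN : 3 ≤ N) {μ : ℝ} (hμ : 0 < μ) (ξ : E N) : Continuous (bubMu N μ ξ) :=
  (G1.dec_bubMu hN hμ ξ).1.continuous

theorem bubXi_cont' (hN : 3 ≤ N) {e : E N} (he : ‖e‖ = 1) {μ : ℝ} (hμ : 0 < μ) (ξ : E N) :
    Continuous (bubXi N e μ ξ) :=
  (G1.dec_bubXi hN he hμ ξ).1.continuous

theorem norm_sub_cen {e : E N} (he : ‖e‖ = 1) (d : ℝ) (x : E N) :
    ‖x - cen e d‖ ^ 2 = ‖x‖ ^ 2 - 2 * (1 - d) * ⟪x, e⟫ + (1 - d) ^ 2 := by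
  unfold cen
  rw [norm_sub_sq_real, norm_smul, he, real_inner_smul_right]
  simp only [Real.norm_eq_abs, mul_one, sq_abs]
  ring

theorem inner_sub_cen {e : E N} (he : ‖e‖ = 1) (d : ℝ) (x : E N) :
    ⟪x - cen e d, e⟫ = ⟪x, e⟫ - (1 - d) := by
  unfold cen
  rw [inner_sub_left, real_inner_smul_left, real_inner_self_eq_norm_sq, he]
  ring

theorem axial_ind {e : E N} {ρ : ℝ} {f : E N → ℝ} {k : ℝ × ℝ → ℝ} (hk : Measurable k)
    (h : ∀ x, f x = k (‖x‖, ⟪x, e⟫)) : Axial e ((ann N ρ).indicator f) := by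
  refine ⟨{p : ℝ × ℝ | ρ < p.1 ∧ p.1 < 1}.indicator k, hk.indicator ?_,
    Eventually.of_forall fun x => ?_⟩
  · exact (measurableSet_lt measurable_const measurable_fst).inter
      (measurableSet_lt measurable_fst measurable_const)
  · by_cases hx : x ∈ ann N ρ
    · rw [indicator_of_mem hx, indicator_of_mem (show ((‖x‖, ⟪x, e⟫) : ℝ × ℝ) ∈
        {p : ℝ × ℝ | ρ < p.1 ∧ p.1 < 1} from hx), h x]
    · rw [indicator_of_notMem hx, indicator_of_notMem (show ¬ ((‖x‖, ⟪x, e⟫) : ℝ × ℝ) ∈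
        {p : ℝ × ℝ | ρ < p.1 ∧ p.1 < 1} from hx)]

/-- `|x - ξ|²` as a function of `(|x|, x·e)` -/
def kQ (d : ℝ) (p : ℝ × ℝ) : ℝ := p.1 ^ 2 - 2 * (1 - d) * p.2 + (1 - d) ^ 2

/-- the bubble as a function of `(|x|, x·e)` -/
def kb (N : ℕ) (d μ : ℝ) (p : ℝ × ℝ) : ℝ := alN N * μ ^ cc N * (μ ^ 2 + kQ d p) ^ (-cc N)

theorem kQ_meas (d : ℝ) : Measurable (kQ d) := by
  unfold kQ
  fun_prop

theorem kb_meas (d μ : ℝ) : Measurable (kb N d μ) := by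
  unfold kb kQ
  fun_prop

theorem bub_kb {e : E N} (he : ‖e‖ = 1) (d μ : ℝ) (x : E N) :
    bub N μ (cen e d) x = kb N d μ (‖x‖, ⟪x, e⟫) := by
  unfold bub kb kQ
  rw [norm_sub_cen he]

theorem bubMu_kb {e : E N} (he : ‖e‖ = 1) (d μ : ℝ) (x : E N) :
    bubMu N μ (cen e d) x = cc N * ((kQ d (‖x‖, ⟪x, e⟫) - μ ^ 2) /
      (μ ^ 2 + kQ d (‖x‖, ⟪x, e⟫))) * kb N d μ (‖x‖, ⟪x, e⟫) := by
  unfold bubMu
  rw [bub_kb he]
  unfold kQ
  rw [norm_sub_cen he]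

theorem bubXi_kb {e : E N} (he : ‖e‖ = 1) (d μ : ℝ) (x : E N) :
    bubXi N e μ (cen e d) x = 2 * cc N * (μ * (⟪x, e⟫ - (1 - d)) /
      (μ ^ 2 + kQ d (‖x‖, ⟪x, e⟫))) * kb N d μ (‖x‖, ⟪x, e⟫) := by
  unfold bubXi
  rw [bub_kb he, inner_sub_cen he]
  unfold kQ
  rw [norm_sub_cen he]

theorem Mq_W (hN : 3 ≤ N) (ρ q : ℝ) (ξ : E N) {μ : ℝ} (hμ : 0 < μ) :
    Mq q (ann N ρ) (fun x => nl N (bub N μ ξ x)) :=
  Mq_cont ((continuous_nl' hN).comp (bub_cont' hN hμ ξ)) q ρ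

theorem Mq_M (hN : 3 ≤ N) (ρ q : ℝ) (ξ : E N) {μ : ℝ} (hμ : 0 < μ) :
    Mq q (ann N ρ) (fun x => dnl N (bub N μ ξ x) * bubMu N μ ξ x) :=
  Mq_cont (((continuous_dnl' hN).comp (bub_cont' hN hμ ξ)).mul (bubMu_cont' hN hμ ξ)) q ρ

theorem Mq_X (hN : 3 ≤ N) (ρ q : ℝ) {e : E N} (he : ‖e‖ = 1) (ξ : E N) {μ : ℝ} (hμ : 0 < μ) :
    Mq q (ann N ρ) (fun x => dnl N (bub N μ ξ x) * bubXi N e μ ξ x) :=
  Mq_cont (((continuous_dnl' hN).comp (bub_cont' hN hμ ξ)).mul (bubXi_cont' hN he hμ ξ)) q ρ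

end PJ

theorem proj_axial (hN : 3 ≤ N) {ρ : ℝ} (hρ : 0 < ρ) (hρ1 : ρ < 1) {e : E N} (he : ‖e‖ = 1)
    {d μ : ℝ} (hμ : 0 < μ) : WW e ρ d μ ∈ XS e ρ ∧ ZM e ρ d μ ∈ XS e ρ ∧ ZX e ρ d μ ∈ XS e ρ := by
  have hn := (PJ.continuous_nl' hN).measurable
  have hdn := (PJ.continuous_dnl' hN).measurable
  have h1 := PJ.kb_meas (N := N) d μ
  have h2 := PJ.kQ_meas d
  refine ⟨T_axial hN hρ hρ1 he (PJ.Mq_W hN ρ _ _ hμ)
      (PJ.axial_ind (k := fun p => nl N (PJ.kb N d μ p)) (hn.comp h1) fun x => ?_),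
    T_axial hN hρ hρ1 he (PJ.Mq_M hN ρ _ _ hμ)
      (PJ.axial_ind (k := fun p => dnl N (PJ.kb N d μ p) * (cc N * ((PJ.kQ d p - μ ^ 2) /
      (μ ^ 2 + PJ.kQ d p)) * PJ.kb N d μ p)) ?_ fun x => ?_),
    T_axial hN hρ hρ1 he (PJ.Mq_X hN ρ _ he _ hμ)
      (PJ.axial_ind (k := fun p => dnl N (PJ.kb N d μ p) * (2 * cc N * (μ * (p.2 - (1 - d)) /
      (μ ^ 2 + PJ.kQ d p)) * PJ.kb N d μ p)) ?_ fun x => ?_)⟩
  · rw [PJ.bub_kb he]
  · exact (hdn.comp h1).mul (((measurable_const.mul ((h2.sub_const _).div (h2.const_add _)))).mul h1)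
  · rw [PJ.bub_kb he, PJ.bubMu_kb he]
  · exact (hdn.comp h1).mul (((measurable_const.mul (((measurable_snd.sub_const _).const_mul _).div
      (h2.const_add _)))).mul h1)
  · rw [PJ.bub_kb he, PJ.bubXi_kb he]

namespace PJ

/-! ### the pointwise bounds of the bubble on the boundary -/

theorem bub_out (hN : 3 ≤ N) {μ d : ℝ} (hμ : 0 < μ) (hd : 0 < d) {ξ x : E N} (h : d ≤ ‖x - ξ‖) :
    bub N μ ξ x ≤ alN N * μ ^ cc N * (‖x - ξ‖ ^ 2) ^ (-cc N) := by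
  unfold bub
  have ha := BI.alN_pos hN
  have hc := BI.cc_pos hN
  have h0 : 0 < ‖x - ξ‖ := lt_of_lt_of_le hd h
  refine mul_le_mul_of_nonneg_left ?_ (by positivity)
  exact Real.rpow_le_rpow_of_nonpos (by positivity) (by nlinarith) (by linarith)

theorem bub_out' (hN : 3 ≤ N) {μ d : ℝ} (hμ : 0 < μ) (hd : 0 < d) {ξ x : E N} (h : d ≤ ‖x - ξ‖) :
    bub N μ ξ x ≤ alN N * μ ^ cc N * d ^ (2 - (N : ℝ)) := by
  have ha := BI.alN_pos hN
  have hc := BI.cc_pos hN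
  refine (bub_out hN hμ hd h).trans (mul_le_mul_of_nonneg_left ?_ (by positivity))
  rw [← sq_rpow_cc hd.le]
  exact Real.rpow_le_rpow_of_nonpos (by positivity) (by nlinarith) (by linarith)

theorem bub_lower (hN : 3 ≤ N) {μ d : ℝ} (hμ : 0 < μ) (hd : 0 < d) {ξ x : E N} (h : d ≤ ‖x - ξ‖) :
    alN N * μ ^ cc N * ((1 + μ ^ 2 / d ^ 2) ^ (-cc N) * (‖x - ξ‖ ^ 2) ^ (-cc N))
      ≤ bub N μ ξ x := by
  unfold bub
  have ha := BI.alN_pos hN
  have hc := BI.cc_pos hN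
  have h0 : 0 < ‖x - ξ‖ := lt_of_lt_of_le hd h
  refine mul_le_mul_of_nonneg_left ?_ (by positivity)
  rw [← Real.mul_rpow (by positivity) (by positivity)]
  refine Real.rpow_le_rpow_of_nonpos (by positivity) ?_ (by linarith)
  have h1 : d ^ 2 ≤ ‖x - ξ‖ ^ 2 := by nlinarith
  have h2 : μ ^ 2 ≤ μ ^ 2 / d ^ 2 * ‖x - ξ‖ ^ 2 := by
    rw [div_mul_eq_mul_div, le_div_iff₀ (by positivity)]
    exact mul_le_mul_of_nonneg_left h1 (by positivity)
  linarith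

theorem J2_self (hN : 3 ≤ N) {μ : ℝ} (hμ : 0 < μ) (ξ x : E N) :
    ∃ G, J2 (bub N μ ξ) x G (- nl N (bub N μ ξ x)) := ⟨_, J2_bub hN hμ ξ x⟩

theorem nl_bub_nonneg (hN : 3 ≤ N) {μ : ℝ} (hμ : 0 < μ) (ξ x : E N) :
    0 ≤ nl N (bub N μ ξ x) := by
  unfold nl
  have := (bub_pos hN hμ ξ x).le
  positivity

/-- data of the geometry -/
theorem geom {ρ : ℝ} (hρ : 0 < ρ) (hρ1 : ρ < 1) {e : E N} (he : ‖e‖ = 1) {d : ℝ} (hd : 0 < d)
    (hd1 : d < (1 - ρ) / 4) {x : E N} :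
    (‖x‖ = 1 → d ≤ ‖x - cen e d‖) ∧ (‖x‖ = ρ → (1 - ρ) / 2 ≤ ‖x - cen e d‖) := by
  have h1 := norm_cen he (show d < 1 by linarith)
  constructor
  · intro hx
    have := norm_sub_norm_le x (cen e d)
    rw [h1, hx] at this
    linarith
  · intro hx
    have := norm_sub_norm_le (cen e d) x
    rw [h1, hx, norm_sub_rev] at this
    linarith

/-- `W ≥ 0` -/
theorem W_nonneg (hN : 3 ≤ N) (e : E N) (ρ d : ℝ) {μ : ℝ} (hμ : 0 < μ) :
    ∀ᵐ x, x ∈ ann N ρ → 0 ≤ fn (WW e ρ d μ) x := by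
  refine comp_low hN (ψ := fun _ => 0) isOpen_univ (subset_univ _) contDiffOn_const
    (fun _ _ => le_rfl) (fun _ _ => le_rfl) (Mq_W hN ρ _ _ hμ) fun x _ => ?_
  rw [lap_const, neg_zero]
  exact nl_bub_nonneg hN hμ _ x

/-- `W ≤ U` -/
theorem W_le (hN : 3 ≤ N) (e : E N) (ρ d : ℝ) {μ : ℝ} (hμ : 0 < μ) :
    ∀ᵐ x, x ∈ ann N ρ → fn (WW e ρ d μ) x ≤ bub N μ (cen e d) x := by
  refine comp_up hN (ψ := bub N μ (cen e d)) isOpen_univ (subset_univ _)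
    (G1.dec_bub hN hμ _).1.contDiffOn
    (fun x _ => (bub_pos hN hμ _ x).le) (fun x _ => (bub_pos hN hμ _ x).le)
    (Mq_W hN ρ _ _ hμ) fun x _ => ?_
  rw [lap_bub hN hμ, neg_neg]

/-- the set where the image function is smooth -/
theorem PP_open (ξ : E N) : IsOpen {x : E N | 0 < PP ξ x} :=
  isOpen_lt continuous_const (PP_continuous ξ)

theorem PP_sub {ξ : E N} {d : ℝ} (hd : 0 < d) (hξ : ‖ξ‖ = 1 - d) :
    closedBall (0 : E N) 1 ⊆ {x : E N | 0 < PP ξ x} := fun x hx =>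
  lt_of_lt_of_le (by positivity) (PP_ge' hd hξ (by simpa using hx))

theorem J2_comb (hN : 3 ≤ N) {μ : ℝ} (hμ : 0 < μ) {ξ x : E N} (hP : 0 < PP ξ x) (a b : ℝ) :
    ∃ G, J2 (fun y => bub N μ ξ y + a * GG ξ y + b) x G (- nl N (bub N μ ξ x)) := by
  obtain ⟨G, hG⟩ := J2_GG hP
  refine ⟨_, ((((J2_bub hN hμ ξ x).add (hG.const_mul a)).add (J2.const b x)).congr
    (Eventually.of_forall fun y => rfl) rfl ?_)⟩
  ring

theorem comb_contDiffOn (hN : 3 ≤ N) {μ : ℝ} (hμ : 0 < μ) (ξ : E N) (a b : ℝ) :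
    ContDiffOn ℝ 2 (fun y => bub N μ ξ y + a * GG ξ y + b) {x : E N | 0 < PP ξ x} := by
  intro x hx
  obtain ⟨G, hG⟩ := J2_comb hN hμ hx a b
  exact hG.1.contDiffWithinAt

/-- upper bound of `U - W` -/
theorem h_le (hN : 3 ≤ N) {ρ : ℝ} (hρ : 0 < ρ) (hρ1 : ρ < 1) {e : E N} (he : ‖e‖ = 1) {d μ : ℝ}
    (hd : 0 < d) (hd1 : d < (1 - ρ) / 4) (hμ : 0 < μ) :
    ∀ᵐ x, x ∈ ann N ρ → bub N μ (cen e d) x - fn (WW e ρ d μ) x
      ≤ alN N * μ ^ cc N * (GG (cen e d) x + ((1 - ρ) / 2) ^ (2 - (N : ℝ))) := by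
  have hξ := norm_cen he (show d < 1 by linarith)
  have ha := BI.alN_pos hN
  have hρ2 : 0 < (1 - ρ) / 2 := by linarith
  have hk : 0 < ((1 - ρ) / 2) ^ (2 - (N : ℝ)) := by positivity
  have h := comp_low hN (ρ := ρ) (g := fun x => nl N (bub N μ (cen e d) x))
    (ψ := fun y => bub N μ (cen e d) y + (- (alN N * μ ^ cc N)) * GG (cen e d) y
      + (- (alN N * μ ^ cc N * ((1 - ρ) / 2) ^ (2 - (N : ℝ)))))
    (PP_open (cen e d)) (PP_sub hd hξ) (comb_contDiffOn hN hμ _ _ _) ?_ ?_ (Mq_W hN ρ _ _ hμ) ?_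
  · filter_upwards [h] with x hx hxa
    have := hx hxa
    unfold WW
    linarith
  · intro x hx
    have h1 := bub_out hN hμ hd ((geom hρ hρ1 he hd hd1).1 hx)
    have h2 : PP (cen e d) x = ‖x - cen e d‖ ^ 2 := by
      rw [PP_eq, hx]
      ring
    have h3 : GG (cen e d) x = (‖x - cen e d‖ ^ 2) ^ (-cc N) := by
      unfold GG
      rw [h2]
    rw [h3]
    have : 0 < alN N * μ ^ cc N * ((1 - ρ) / 2) ^ (2 - (N : ℝ)) := by positivity
    linarith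
  · intro x hx
    have h1 := bub_out' hN hμ hρ2 ((geom hρ hρ1 he hd hd1).2 hx)
    have h2 : 0 ≤ alN N * μ ^ cc N * GG (cen e d) x :=
      mul_nonneg (by positivity) GG_nonneg
    linarith
  · intro x hx
    have hP := PP_sub hd hξ (ball_subset_closedBall (ann_sub ρ hx))
    obtain ⟨G, hG⟩ := J2_comb hN hμ hP (- (alN N * μ ^ cc N))
      (- (alN N * μ ^ cc N * ((1 - ρ) / 2) ^ (2 - (N : ℝ))))
    rw [hG.2.2, neg_neg]

/-- lower bound of `U - W` -/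
theorem h_ge (hN : 3 ≤ N) {ρ : ℝ} (hρ : 0 < ρ) (hρ1 : ρ < 1) {e : E N} (he : ‖e‖ = 1) {d μ : ℝ}
    (hd : 0 < d) (hd1 : d < (1 - ρ) / 4) (hμ : 0 < μ) :
    ∀ᵐ x, x ∈ ann N ρ → alN N * μ ^ cc N * ((1 + μ ^ 2 / d ^ 2) ^ (-cc N) * GG (cen e d) x
        - ((1 - ρ) / 2) ^ (2 - (N : ℝ))) ≤ bub N μ (cen e d) x - fn (WW e ρ d μ) x := by
  have hξ := norm_cen he (show d < 1 by linarith)
  have ha := BI.alN_pos hN
  have hc := BI.cc_pos hN
  have hρ2 : 0 < (1 - ρ) / 2 := by linarith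
  have hk : 0 < ((1 - ρ) / 2) ^ (2 - (N : ℝ)) := by positivity
  have hκ : 0 < (1 + μ ^ 2 / d ^ 2) ^ (-cc N) := by positivity
  have hκ1 : (1 + μ ^ 2 / d ^ 2) ^ (-cc N) ≤ 1 := by
    apply Real.rpow_le_one_of_one_le_of_nonpos
    · have : 0 ≤ μ ^ 2 / d ^ 2 := by positivity
      linarith
    · linarith
  have h := comp_up hN (ρ := ρ) (g := fun x => nl N (bub N μ (cen e d) x))
    (ψ := fun y => bub N μ (cen e d) y
      + (- (alN N * μ ^ cc N * (1 + μ ^ 2 / d ^ 2) ^ (-cc N))) * GG (cen e d) y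
      + alN N * μ ^ cc N * ((1 - ρ) / 2) ^ (2 - (N : ℝ)))
    (PP_open (cen e d)) (PP_sub hd hξ) (comb_contDiffOn hN hμ _ _ _) ?_ ?_ (Mq_W hN ρ _ _ hμ) ?_
  · filter_upwards [h] with x hx hxa
    have := hx hxa
    unfold WW
    linarith
  · intro x hx
    have h1 := bub_lower hN hμ hd ((geom hρ hρ1 he hd hd1).1 hx)
    have h2 : PP (cen e d) x = ‖x - cen e d‖ ^ 2 := by
      rw [PP_eq, hx]
      ring
    have h3 : GG (cen e d) x = (‖x - cen e d‖ ^ 2) ^ (-cc N) := by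
      unfold GG
      rw [h2]
    rw [h3]
    have : 0 < alN N * μ ^ cc N * ((1 - ρ) / 2) ^ (2 - (N : ℝ)) := by positivity
    linarith
  · intro x hx
    have h1 := (bub_pos hN hμ (cen e d) x).le
    have h2 : GG (cen e d) x ≤ ((1 - ρ) / 2) ^ (2 - (N : ℝ)) := by
      rw [← sq_rpow_cc hρ2.le]
      unfold GG
      refine Real.rpow_le_rpow_of_nonpos (by positivity) ?_ (by linarith)
      refine le_trans ?_ PP_ge
      rw [hx, hξ]
      apply pow_le_pow_left₀ hρ2.le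
      nlinarith
    have h3 : alN N * μ ^ cc N * (1 + μ ^ 2 / d ^ 2) ^ (-cc N) * GG (cen e d) x
        ≤ alN N * μ ^ cc N * ((1 - ρ) / 2) ^ (2 - (N : ℝ)) := by
      calc alN N * μ ^ cc N * (1 + μ ^ 2 / d ^ 2) ^ (-cc N) * GG (cen e d) x
          ≤ alN N * μ ^ cc N * 1 * ((1 - ρ) / 2) ^ (2 - (N : ℝ)) := by
            have := GG_nonneg (N := N) (ξ := cen e d) (x := x)
            gcongr
        _ = _ := by ring
    linarith
  · intro x hx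
    have hP := PP_sub hd hξ (ball_subset_closedBall (ann_sub ρ hx))
    obtain ⟨G, hG⟩ := J2_comb hN hμ hP (- (alN N * μ ^ cc N * (1 + μ ^ 2 / d ^ 2) ^ (-cc N)))
      (alN N * μ ^ cc N * ((1 - ρ) / 2) ^ (2 - (N : ℝ)))
    rw [hG.2.2, neg_neg]

/-- comparison of a function with the solution with the same Laplacian -/
theorem diff_le (hN : 3 ≤ N) {ρ M : ℝ} {z g : E N → ℝ} (hz : ContDiff ℝ 2 z)
    (hlap : ∀ x, lap z x = - g x) (hg : Mq (td N) (ann N ρ) g)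
    (hout : ∀ x : E N, ‖x‖ = 1 → |z x| ≤ M) (hin : ∀ x : E N, ‖x‖ = ρ → |z x| ≤ M) :
    ∀ᵐ x, x ∈ ann N ρ → |z x - fn (T (ann N ρ) g) x| ≤ M := by
  have h1 := comp_up hN (ρ := ρ) (g := g) (ψ := fun x => z x + M) isOpen_univ (subset_univ _)
    (hz.contDiffOn.add contDiffOn_const) (fun x hx => by linarith [(abs_le.1 (hout x hx)).1])
    (fun x hx => by linarith [(abs_le.1 (hin x hx)).1]) hg fun x _ => by
      rw [lap_add hz.contDiffAt contDiffAt_const, lap_const, hlap x]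
      linarith
  have h2 := comp_low hN (ρ := ρ) (g := g) (ψ := fun x => z x + (-M)) isOpen_univ (subset_univ _)
    (hz.contDiffOn.add contDiffOn_const) (fun x hx => by linarith [(abs_le.1 (hout x hx)).2])
    (fun x hx => by linarith [(abs_le.1 (hin x hx)).2]) hg fun x _ => by
      rw [lap_add hz.contDiffAt contDiffAt_const, lap_const, hlap x]
      linarith
  filter_upwards [h1, h2] with x hx1 hx2 hxa
  have := hx1 hxa
  have := hx2 hxa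
  rw [abs_le]
  constructor <;> linarith

/-- comparison of right-hand sides -/
theorem T_le (hN : 3 ≤ N) {ρ C : ℝ} {g g' : E N → ℝ} (hg : Mq (td N) (ann N ρ) g)
    (hg' : Mq (td N) (ann N ρ) g') (h : ∀ x ∈ ann N ρ, |g x| ≤ C * g' x) :
    ∀ᵐ x, x ∈ ann N ρ → |fn (T (ann N ρ) g) x| ≤ C * fn (T (ann N ρ) g') x := by
  have hm := (ann_open (N := N) ρ).measurableSet
  have hf : fn (T (ann N ρ) (fun x => g x + (-C) * g' x)) =ᵐ[volume]
      fun x => fn (T (ann N ρ) g) x + (-C) * fn (T (ann N ρ) g') x := by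
    have hu1 := DD_mono (subset_univ _) (T_mem (ann N ρ) g)
    have hu2 := DD_mono (subset_univ _) (T_mem (ann N ρ) g')
    rw [T_add hN hm hg (hg'.const_mul (-C)), T_smul hN hm (-C) hg']
    filter_upwards [fn_add hN hu1 (Submodule.smul_mem _ (-C) hu2), fn_smul hN (-C) hu2] with x h1 h2
    rw [h1, h2]
  have hf' : fn (T (ann N ρ) (fun x => g x + C * g' x)) =ᵐ[volume]
      fun x => fn (T (ann N ρ) g) x + C * fn (T (ann N ρ) g') x := by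
    have hu1 := DD_mono (subset_univ _) (T_mem (ann N ρ) g)
    have hu2 := DD_mono (subset_univ _) (T_mem (ann N ρ) g')
    rw [T_add hN hm hg (hg'.const_mul C), T_smul hN hm C hg']
    filter_upwards [fn_add hN hu1 (Submodule.smul_mem _ C hu2), fn_smul hN C hu2] with x h1 h2
    rw [h1, h2]
  have h1 := comp_up hN (ρ := ρ) (g := fun x => g x + (-C) * g' x) (ψ := fun _ => 0) isOpen_univ
    (subset_univ _) contDiffOn_const (fun _ _ => le_rfl) (fun _ _ => le_rfl)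
    (hg.add (hg'.const_mul (-C))) fun x hx => by
      rw [lap_const]
      have := (abs_le.1 (h x hx)).2
      linarith
  have h2 := comp_low hN (ρ := ρ) (g := fun x => g x + C * g' x) (ψ := fun _ => 0) isOpen_univ
    (subset_univ _) contDiffOn_const (fun _ _ => le_rfl) (fun _ _ => le_rfl)
    (hg.add (hg'.const_mul C)) fun x hx => by
      rw [lap_const]
      have := (abs_le.1 (h x hx)).1
      linarith
  filter_upwards [h1, h2, hf, hf'] with x hx1 hx2 hx3 hx4 hxa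
  have h5 := hx1 hxa
  have h6 := hx2 hxa
  rw [hx3] at h5
  rw [hx4] at h6
  rw [abs_le]
  constructor <;> linarith

theorem alg {g Q t κ k c1 c2 A h d s : ℝ} (hA : 0 ≤ A) (hd : 0 ≤ d) (hQ : 0 ≤ Q) (hs : 0 ≤ s)
    (hc2 : 0 ≤ c2) (hk : 0 ≤ k) (hg0 : 0 ≤ g) (hgQ : g ≤ Q) (hgt : |g - t| ≤ c1 * Q * (d + s))
    (hκ : |κ - 1| ≤ c2 * d) (hkQ : k ≤ k * Q * d) (h1 : h ≤ A * (g + k)) (h2 : A * (κ * g - k) ≤ h) :
    |h - A * t| ≤ A * ((c1 + c2 + k) * Q * (d + s)) := by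
  have e1 := abs_le.1 hgt
  have e2 := abs_le.1 hκ
  have f1 : 0 ≤ c2 * Q * s := by positivity
  have f2 : 0 ≤ k * Q * s := by positivity
  have f3 : 0 ≤ c2 * Q * d := by positivity
  have f4 : -(c2 * d) * g ≤ (κ - 1) * g := mul_le_mul_of_nonneg_right e2.1 hg0
  have f5 : (c2 * d) * g ≤ (c2 * d) * Q := mul_le_mul_of_nonneg_left hgQ (by positivity)
  have up : g + k - t ≤ (c1 + c2 + k) * Q * (d + s) := by
    have : (c1 + c2 + k) * Q * (d + s) = c1 * Q * (d + s) + c2 * Q * d + c2 * Q * s + k * Q * d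
      + k * Q * s := by ring
    rw [this]
    linarith [e1.2]
  have lo : -((c1 + c2 + k) * Q * (d + s)) ≤ κ * g - k - t := by
    have : (c1 + c2 + k) * Q * (d + s) = c1 * Q * (d + s) + c2 * Q * d + c2 * Q * s + k * Q * d
      + k * Q * s := by ring
    rw [this]
    linarith [e1.1]
  have up' := mul_le_mul_of_nonneg_left up hA
  have lo' := mul_le_mul_of_nonneg_left lo hA
  rw [abs_le]
  constructor <;> linarith

theorem dnl_le (hN : 3 ≤ N) {μ : ℝ} (hμ : 0 < μ) (ξ x : E N) {z : ℝ}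
    (hz : |z| ≤ cc N * bub N μ ξ x) :
    |dnl N (bub N μ ξ x) * z| ≤ ((pm N + 1) * cc N) * nl N (bub N μ ξ x) := by
  have hp := pm_pos' hN
  have hb := bub_pos hN hμ ξ x
  unfold dnl nl
  rw [abs_mul, abs_of_nonneg (show 0 ≤ (pm N + 1) * |bub N μ ξ x| ^ pm N by positivity)]
  calc (pm N + 1) * |bub N μ ξ x| ^ pm N * |z|
      ≤ (pm N + 1) * |bub N μ ξ x| ^ pm N * (cc N * bub N μ ξ x) := by gcongr
    _ = _ := by ring

end PJ

theorem proj_est (hN : 3 ≤ N) (hN5 : N ≤ 5) {ρ : ℝ} (hρ : 0 < ρ) (hρ1 : ρ < 1) :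
    ∃ C d₁ : ℝ, 0 < C ∧ 0 < d₁ ∧ ρ < 1 - d₁ ∧ ∀ (e : E N) (d μ : ℝ), ‖e‖ = 1 → 0 < d → d < d₁ →
      0 < μ → μ ≤ d ^ 2 → ∀ᵐ x, x ∈ ann N ρ →
        0 ≤ fn (WW e ρ d μ) x ∧ fn (WW e ρ d μ) x ≤ bub N μ (cen e d) x ∧
        bub N μ (cen e d) x - fn (WW e ρ d μ) x ≤ C * μ ^ cc N * d ^ (2 - (N : ℝ)) ∧
        |bub N μ (cen e d) x - fn (WW e ρ d μ) x - alN N * μ ^ cc N * (2 * d) ^ (2 - (N : ℝ))|
          ≤ C * μ ^ cc N * d ^ (2 - (N : ℝ)) * (d + ‖x - cen e d‖ / d) ∧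
        |bubMu N μ (cen e d) x - fn (ZM e ρ d μ) x| ≤ C * μ ^ cc N * d ^ (2 - (N : ℝ)) ∧
        |bubXi N e μ (cen e d) x - fn (ZX e ρ d μ) x| ≤ C * μ ^ cc N * d ^ (2 - (N : ℝ)) ∧
        |fn (ZM e ρ d μ) x| ≤ C * fn (WW e ρ d μ) x ∧
        |fn (ZX e ρ d μ) x| ≤ C * fn (WW e ρ d μ) x := by
  have hN3 : (3 : ℝ) ≤ N := by exact_mod_cast hN
  have ha := BI.alN_pos hN
  have hc := BI.cc_pos hN
  have hp := PJ.pm_pos' hN
  have hρ2 : 0 < (1 - ρ) / 2 := by linarith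
  obtain ⟨C₁, hC₁, hG⟩ := PJ.GG_near (N := N) hN
  obtain ⟨C₂, hC₂, hR⟩ := PJ.rpow_near (cc N) hc
  set k := ((1 - ρ) / 2) ^ (2 - (N : ℝ)) with hk
  have hk0 : 0 < k := by positivity
  set C := alN N * (1 + k) + alN N * (C₁ + C₂ + k) + cc N * alN N * (1 + k) + (pm N + 1) * cc N
    with hC
  have hCa : 0 ≤ alN N * (1 + k) := by positivity
  have hCb : 0 ≤ alN N * (C₁ + C₂ + k) := by positivity
  have hCc : 0 ≤ cc N * alN N * (1 + k) := by positivity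
  have hCd : 0 < (pm N + 1) * cc N := by positivity
  refine ⟨C, (1 - ρ) / 4, by positivity, by linarith, by linarith, ?_⟩
  intro e d μ he hd hd1 hμ hμd
  have hdlt : d < 1 := by linarith
  have hξ := PJ.norm_cen he hdlt
  have hdN : 1 ≤ d ^ (2 - (N : ℝ)) :=
    Real.one_le_rpow_of_pos_of_le_one_of_nonpos hd hdlt.le (by linarith)
  have hτ : 0 < μ ^ cc N := by positivity
  have hgeo := fun x : E N => PJ.geom hρ hρ1 he hd hd1 (x := x)
  -- bound of the bubble on the boundary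
  have hbo : ∀ x : E N, ‖x‖ = 1 → cc N * bub N μ (cen e d) x
      ≤ cc N * alN N * (1 + k) * μ ^ cc N * d ^ (2 - (N : ℝ)) := by
    intro x hx
    have h1 := PJ.bub_out' hN hμ hd ((hgeo x).1 hx)
    have h2 : 0 ≤ cc N * alN N * k * μ ^ cc N * d ^ (2 - (N : ℝ)) := by positivity
    have h3 := mul_le_mul_of_nonneg_left h1 hc.le
    nlinarith
  have hbi : ∀ x : E N, ‖x‖ = ρ → cc N * bub N μ (cen e d) x
      ≤ cc N * alN N * (1 + k) * μ ^ cc N * d ^ (2 - (N : ℝ)) := by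
    intro x hx
    have h1 := PJ.bub_out' hN hμ hρ2 ((hgeo x).2 hx)
    rw [← hk] at h1
    have h3 := mul_le_mul_of_nonneg_left h1 hc.le
    have h4 : cc N * alN N * (1 + k) * μ ^ cc N
        ≤ cc N * alN N * (1 + k) * μ ^ cc N * d ^ (2 - (N : ℝ)) :=
      le_mul_of_one_le_right (by positivity) hdN
    have h5 : 0 ≤ cc N * alN N * μ ^ cc N := by positivity
    nlinarith
  have hM := PJ.diff_le hN (ρ := ρ) (G1.dec_bubMu hN hμ (cen e d)).1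
    (fun x => lap_bubMu hN hμ (cen e d) x) (PJ.Mq_M hN ρ _ _ hμ)
    (M := cc N * alN N * (1 + k) * μ ^ cc N * d ^ (2 - (N : ℝ)))
    (fun x hx => (bubMu_le hN hμ _ x).trans (hbo x hx))
    (fun x hx => (bubMu_le hN hμ _ x).trans (hbi x hx))
  have hX := PJ.diff_le hN (ρ := ρ) (G1.dec_bubXi hN he hμ (cen e d)).1
    (fun x => lap_bubXi hN he hμ (cen e d) x) (PJ.Mq_X hN ρ _ he _ hμ)
    (M := cc N * alN N * (1 + k) * μ ^ cc N * d ^ (2 - (N : ℝ)))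
    (fun x hx => (bubXi_le hN he hμ _ x).trans (hbo x hx))
    (fun x hx => (bubXi_le hN he hμ _ x).trans (hbi x hx))
  have hM' := PJ.T_le hN (ρ := ρ) (C := (pm N + 1) * cc N) (PJ.Mq_M hN ρ _ (cen e d) hμ)
    (PJ.Mq_W hN ρ _ (cen e d) hμ) (fun x _ => PJ.dnl_le hN hμ _ x (bubMu_le hN hμ _ x))
  have hX' := PJ.T_le hN (ρ := ρ) (C := (pm N + 1) * cc N) (PJ.Mq_X hN ρ _ he (cen e d) hμ)
    (PJ.Mq_W hN ρ _ (cen e d) hμ) (fun x _ => PJ.dnl_le hN hμ _ x (bubXi_le hN he hμ _ x))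
  filter_upwards [PJ.W_nonneg hN e ρ d hμ, PJ.W_le hN e ρ d hμ, PJ.h_le hN hρ hρ1 he hd hd1 hμ,
    PJ.h_ge hN hρ hρ1 he hd hd1 hμ, hM, hX, hM', hX'] with x x1 x2 x3 x4 x5 x6 x7 x8 hxa
  have y1 := x1 hxa
  have y2 := x2 hxa
  have y3 := x3 hxa
  have y4 := x4 hxa
  have y5 := x5 hxa
  have y6 := x6 hxa
  have y7 := x7 hxa
  have y8 := x8 hxa
  rw [← hk] at y3 y4
  have hx1 : ‖x‖ ≤ 1 := hxa.2.le
  have hGd := PJ.GG_le hN hd hξ hx1
  have hG0 := PJ.GG_nonneg (N := N) (ξ := cen e d) (x := x)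
  have hkd : k ≤ k * d ^ (2 - (N : ℝ)) := le_mul_of_one_le_right hk0.le hdN
  -- `k ≤ k d d^{2-N}`
  have hkd2 : k ≤ k * d ^ (2 - (N : ℝ)) * d := by
    have : 1 ≤ d ^ (2 - (N : ℝ)) * d := by
      rw [← Real.rpow_add_one hd.ne']
      exact Real.one_le_rpow_of_pos_of_le_one_of_nonpos hd hdlt.le (by linarith)
    rw [mul_assoc]
    exact le_mul_of_one_le_right hk0.le this
  have hbig : ∀ A B : ℝ, 0 ≤ A → 0 ≤ B → A ≤ C → A * (μ ^ cc N * B) ≤ C * (μ ^ cc N * B) := by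
    intro A B hA hB hAC
    have : 0 ≤ μ ^ cc N * B := by positivity
    exact mul_le_mul_of_nonneg_right hAC this
  refine ⟨y1, y2, ?_, ?_, ?_, ?_, ?_, ?_⟩
  · calc _ ≤ _ := y3
      _ ≤ alN N * μ ^ cc N * (d ^ (2 - (N : ℝ)) + k * d ^ (2 - (N : ℝ))) := by gcongr
      _ = alN N * (1 + k) * (μ ^ cc N * d ^ (2 - (N : ℝ))) := by ring
      _ ≤ C * (μ ^ cc N * d ^ (2 - (N : ℝ))) := hbig _ _ hCa (by positivity) (by linarith)
      _ = _ := by ring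
  · have hκ0 : |(1 + μ ^ 2 / d ^ 2) ^ (-cc N) - 1| ≤ C₂ * d := by
      have h1 : 0 ≤ μ ^ 2 / d ^ 2 := by positivity
      refine (hR _ (by linarith)).trans ?_
      rw [add_sub_cancel_left, abs_of_nonneg h1]
      have h2 : μ ^ 2 / d ^ 2 ≤ d := by
        rw [div_le_iff₀ (by positivity)]
        have h3 : μ ^ 2 ≤ (d ^ 2) ^ 2 := by gcongr
        have h4 : (d ^ 2) ^ 2 ≤ d * d ^ 2 := by
          have : 0 < d ^ 3 := by positivity
          nlinarith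
        linarith
      gcongr
    have hnear := hG (cen e d) x d hd hdlt hξ hx1
    set κ := (1 + μ ^ 2 / d ^ 2) ^ (-cc N) with hκ
    set Q := d ^ (2 - (N : ℝ)) with hQ
    have hQ0 : 0 < Q := by positivity
    have hr0 : 0 ≤ ‖x - cen e d‖ / d := by positivity
    have key : |bub N μ (cen e d) x - fn (WW e ρ d μ) x - alN N * μ ^ cc N * (2 * d) ^ (2 - (N : ℝ))|
        ≤ alN N * μ ^ cc N * ((C₁ + C₂ + k) * Q * (d + ‖x - cen e d‖ / d)) := by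
      refine PJ.alg (by positivity) hd.le hQ0.le hr0 hC₂.le hk0.le hG0 hGd hnear hκ0 hkd2 y3 y4
    calc _ ≤ _ := key
      _ = alN N * (C₁ + C₂ + k) * (μ ^ cc N * (Q * (d + ‖x - cen e d‖ / d))) := by ring
      _ ≤ C * (μ ^ cc N * (Q * (d + ‖x - cen e d‖ / d))) :=
          hbig _ _ hCb (by positivity) (by linarith)
      _ = _ := by ring
  · calc _ ≤ _ := y5
      _ = cc N * alN N * (1 + k) * (μ ^ cc N * d ^ (2 - (N : ℝ))) := by ring
      _ ≤ C * (μ ^ cc N * d ^ (2 - (N : ℝ))) := hbig _ _ hCc (by positivity) (by linarith)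
      _ = _ := by ring
  · calc _ ≤ _ := y6
      _ = cc N * alN N * (1 + k) * (μ ^ cc N * d ^ (2 - (N : ℝ))) := by ring
      _ ≤ C * (μ ^ cc N * d ^ (2 - (N : ℝ))) := hbig _ _ hCc (by positivity) (by linarith)
      _ = _ := by ring
  · refine y7.trans (mul_le_mul_of_nonneg_right (by linarith) y1)
  · refine y8.trans (mul_le_mul_of_nonneg_right (by linarith) y1)

end Pool.Agent.helper13.BN
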